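import Mathlib

/-!
Holomorphy of parametric integrals, and shifting a horizontal contour inside a strip.
-/

namespace Pool.Agent.P.MP_0afb51_an

open Complex Set Filter Topology MeasureTheory Metric

theorem differentiableOn_integral_of_bound {α : Type*} [MeasurableSpace α] {μ : Measure α}
    {U : Set ℂ} (hU : IsOpen U) {F : ℂ → α → ℂ} {bound : α → ℝ}
    (hmeas : ∀ z ∈ U, AEStronglyMeasurable (F z) μ)
    (hdiff : ∀ a, DifferentiableOn ℂ (fun z => F z a) U)
    (hb : ∀ᵐ a ∂μ, ∀ z ∈ U, ‖F z a‖ ≤ bound a) (hint : Integrable bound μ) :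
    DifferentiableOn ℂ (fun z => ∫ a, F z a ∂μ) U := by
  intro z₀ hz₀
  obtain ⟨ε, hε, hεU⟩ := Metric.isOpen_iff.1 hU z₀ hz₀
  set r := ε / 3 with hr
  have hr0 : 0 < r := by positivity
  have hsub : ∀ z ∈ ball z₀ r, closedBall z r ⊆ U := by
    intro z hz w hw
    apply hεU
    rw [mem_ball] at hz ⊢
    rw [mem_closedBall] at hw
    have := dist_triangle w z z₀
    linarith
  have hmem : ∀ z ∈ ball z₀ r, z ∈ U := fun z hz => hsub z hz (mem_closedBall_self hr0.le)
  have hder : ∀ a, ∀ z ∈ U, HasDerivAt (fun z => F z a) (deriv (fun z => F z a) z) z :=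
    fun a z hz => ((hdiff a).differentiableAt (hU.mem_nhds hz)).hasDerivAt
  have hmeas' : AEStronglyMeasurable (fun a => deriv (fun z => F z a) z₀) μ := by
    let h : ℕ → ℂ := fun n => ((r / ((n : ℝ) + 1) : ℝ) : ℂ)
    have hpos : ∀ n : ℕ, 0 < r / ((n : ℝ) + 1) := fun n => by positivity
    have h0 : Tendsto h atTop (𝓝[≠] 0) := by
      rw [tendsto_nhdsWithin_iff]
      constructor
      · have := (tendsto_one_div_add_atTop_nhds_zero_nat (𝕜 := ℝ)).const_mul r
        have h2 := (Complex.continuous_ofReal.tendsto _).comp this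
        simp only [mul_zero, ofReal_zero] at h2
        refine h2.congr fun n => ?_
        simp [h, div_eq_mul_inv]
      · refine Eventually.of_forall fun n => ?_
        simp only [h, mem_compl_iff, mem_singleton_iff, ofReal_eq_zero]
        exact (hpos n).ne'
    refine aestronglyMeasurable_of_tendsto_ae (u := atTop)
      (f := fun (n : ℕ) a => (h n)⁻¹ • (F (z₀ + h n) a - F z₀ a)) (fun n => ?_) ?_
    · refine ((hmeas _ ?_).sub (hmeas _ hz₀)).const_smul (h n)⁻¹
      apply hsub z₀ (mem_ball_self hr0)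
      rw [mem_closedBall, dist_self_add_left]
      simp only [h, Complex.norm_real, Real.norm_eq_abs, abs_of_pos (hpos n)]
      rw [div_le_iff₀ (by positivity)]
      nlinarith [Nat.cast_nonneg (α := ℝ) n]
    · refine Eventually.of_forall fun a => ?_
      exact (hasDerivAt_iff_tendsto_slope_zero.1 (hder a z₀ hz₀)).comp h0
  have key := hasDerivAt_integral_of_dominated_loc_of_deriv_le (μ := μ) (F := F) (x₀ := z₀)
    (s := ball z₀ r) (bound := fun a => bound a / r) (ball_mem_nhds z₀ hr0)
    (F' := fun z a => deriv (fun z => F z a) z)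
    (Filter.mem_of_superset (hU.mem_nhds hz₀) fun z hz => hmeas z hz)
    (hint.mono' (hmeas z₀ hz₀) (hb.mono fun a ha => ha z₀ hz₀)) hmeas' ?_ (hint.div_const r) ?_
  · exact key.2.differentiableAt.differentiableWithinAt
  · refine hb.mono fun a ha z hz => ?_
    refine norm_deriv_le_of_forall_mem_sphere_norm_le hr0 ?_ fun w hw => ha w (hsub z hz ?_)
    · exact ((hdiff a).mono (hsub z hz)).diffContOnCl_ball subset_rfl
    · exact sphere_subset_closedBall hw
  · exact Eventually.of_forall fun a z hz => hder a z (hmem z hz)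

theorem differentiableOn_intervalIntegral {U : Set ℂ} (hU : IsOpen U) {F : ℂ → ℝ → ℂ}
    (hc : Continuous fun p : ℂ × ℝ => F p.1 p.2)
    (hdiff : ∀ s, DifferentiableOn ℂ (fun z => F z s) U) (a b : ℝ) :
    DifferentiableOn ℂ (fun z => ∫ s in a..b, F z s) U := by
  intro z₀ hz₀
  obtain ⟨ε, hε, hεU⟩ := Metric.isOpen_iff.1 hU z₀ hz₀
  obtain ⟨C, hC⟩ := ((isCompact_closedBall z₀ ε).prod
    (isCompact_uIcc (a := a) (b := b))).exists_bound_of_continuousOn hc.continuousOn
  have h := differentiableOn_integral_of_bound (μ := volume.restrict (uIoc a b)) (U := ball z₀ ε)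
    isOpen_ball (F := F) (bound := fun _ => C)
    (fun z _ => (hc.comp (Continuous.prodMk_right z)).aestronglyMeasurable)
    (fun s => (hdiff s).mono hεU) ?_ ?_
  · simp only [intervalIntegral.intervalIntegral_eq_integral_uIoc]
    exact ((h.differentiableAt (ball_mem_nhds z₀ hε)).const_smul _).differentiableWithinAt
  · rw [ae_restrict_iff' measurableSet_uIoc]
    refine Eventually.of_forall fun s hs z hz => ?_
    exact hC (z, s) ⟨ball_subset_closedBall hz, uIoc_subset_uIcc hs⟩
  · have h1 : volume (uIoc a b) ≠ ⊤ := by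
      rw [Real.volume_uIoc]; exact ENNReal.ofReal_ne_top
    have h2 : ‖C‖ₑ ≠ ⊤ := enorm_ne_top
    exact integrableOn_const h1 h2

/-- The open horizontal strip. -/
def strip (η : ℝ) : Set ℂ := {z | |z.im| < η}

theorem isOpen_strip (η : ℝ) : IsOpen (strip η) :=
  isOpen_lt (by fun_prop) continuous_const

theorem integral_shift {η : ℝ} {f : ℂ → ℂ} (hf : DifferentiableOn ℂ f (strip η)) {g : ℝ → ℝ}
    (hb : ∀ z ∈ strip η, ‖f z‖ ≤ g z.re) (hg : Integrable g)
    (h1 : Tendsto g atTop (𝓝 0)) (h2 : Tendsto g atBot (𝓝 0)) {y : ℝ} (hy : |y| < η) :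
    ∫ k : ℝ, f k = ∫ k : ℝ, f (k + y * I) := by
  have hη : 0 < η := lt_of_le_of_lt (abs_nonneg y) hy
  have hint : ∀ v : ℝ, |v| < η → Integrable fun k : ℝ => f (k + v * I) := by
    intro v hv
    have hmem : ∀ k : ℝ, (k + v * I : ℂ) ∈ strip η := fun k => by simpa [strip] using hv
    refine hg.mono' ?_ (Eventually.of_forall fun k => ?_)
    · refine Continuous.aestronglyMeasurable ?_
      exact hf.continuousOn.comp_continuous (by fun_prop) hmem
    · simpa using hb _ (hmem k)
  have hv : ∀ v ∈ uIcc (0 : ℝ) y, |v| < η := by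
    intro v hv
    refine lt_of_le_of_lt ?_ hy
    simpa using abs_sub_left_of_mem_uIcc hv
  have hrect : ∀ R : ℝ, (∫ x in (-R)..R, f (x + (0 : ℝ) * I)) - (∫ x in (-R)..R, f (x + y * I)) +
      I • (∫ v in (0 : ℝ)..y, f (R + v * I)) - I • (∫ v in (0 : ℝ)..y, f ((-R : ℝ) + v * I)) = 0 := by
    intro R
    have := integral_boundary_rect_eq_zero_of_differentiableOn f (-R : ℝ) (R + y * I) ?_
    · simpa using this
    · refine hf.mono fun z hz => ?_
      rw [mem_reProdIm] at hz
      exact hv _ (by simpa using hz.2)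
  have hvert : ∀ {l : Filter ℝ} {c : ℝ → ℝ}, Tendsto (fun R => g (c R)) l (𝓝 0) →
      Tendsto (fun R => I • ∫ v in (0 : ℝ)..y, f (c R + v * I)) l (𝓝 0) := by
    intro l c hc
    rw [tendsto_zero_iff_norm_tendsto_zero]
    refine squeeze_zero (fun _ => norm_nonneg _) (g := fun R => g (c R) * |y - 0|)
      (fun R => ?_) (by simpa using hc.mul_const |y - 0|)
    rw [norm_smul, Complex.norm_I, one_mul]
    refine intervalIntegral.norm_integral_le_of_norm_le_const fun v hv' => ?_
    have hmem : (c R + v * I : ℂ) ∈ strip η := by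
      simpa [strip] using hv v (uIoc_subset_uIcc hv')
    simpa using hb _ hmem
  have t1 := intervalIntegral_tendsto_integral (hint 0 (by simpa using hη))
    tendsto_neg_atTop_atBot (tendsto_id (x := atTop))
  have t2 := intervalIntegral_tendsto_integral (hint y hy)
    tendsto_neg_atTop_atBot (tendsto_id (x := atTop))
  have t3 := hvert (l := atTop) (c := fun R => R) h1
  have t4 := hvert (l := atTop) (c := fun R => -R) (h2.comp tendsto_neg_atTop_atBot)
  have t5 := ((t1.sub t2).add t3).sub t4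
  have t6 : Tendsto (fun _ : ℝ => (0 : ℂ)) atTop (𝓝 ((∫ k : ℝ, f (k + (0 : ℝ) * I)) -
      (∫ k : ℝ, f (k + y * I)) + 0 - 0)) := t5.congr fun R => hrect R
  have t7 := tendsto_nhds_unique t6 tendsto_const_nhds
  simp only [ofReal_zero, zero_mul, add_zero, sub_zero] at t7
  exact sub_eq_zero.1 t7

end Pool.Agent.P.MP_0afb51_an
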