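import Pool.Agent.P.MP_0afb51_an.Kernel
import Pool.Agent.P.MP_0afb51_an.Holo

/-!
The final datum, singular at the two points `0` and `1`.
-/

namespace Pool.Agent.P.MP_0afb51_an

open Complex Set Filter Topology MeasureTheory
open scoped ComplexConjugate

noncomputable def jap (z : ℂ) : ℂ := (1 + z ^ 2) ^ (2⁻¹ : ℂ)

noncomputable def dat (q : ℕ) (z : ℂ) : ℂ :=
  (-I * z) ^ (q + 1) * (1 + exp (-I * z)) / jap z ^ (2 * q + 3)

theorem jap_sq (z : ℂ) : jap z ^ 2 = 1 + z ^ 2 := by simp [jap]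

theorem re_one_add_sq (z : ℂ) : (1 + z ^ 2).re = 1 + z.re ^ 2 - z.im ^ 2 := by
  simp [pow_succ]; ring

theorem norm_jap_ge {z : ℂ} (hz : |z.im| ≤ 1 / 2) : (1 + |z.re|) / 2 ≤ ‖jap z‖ := by
  have h1 : ((1 + |z.re|) / 2) ^ 2 ≤ ‖jap z‖ ^ 2 := by
    rw [← norm_pow, jap_sq]
    have h2 := Complex.re_le_norm (1 + z ^ 2)
    rw [re_one_add_sq] at h2
    nlinarith [sq_abs z.re, sq_abs z.im, abs_nonneg z.im, sq_nonneg (|z.re| - 1)]
  exact (abs_le_of_sq_le_sq' h1 (norm_nonneg _)).2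

theorem jap_ne_zero {z : ℂ} (hz : |z.im| ≤ 1 / 2) : jap z ≠ 0 :=
  norm_pos_iff.1 (lt_of_lt_of_le (by positivity) (norm_jap_ge hz))

theorem differentiableOn_dat (q : ℕ) : DifferentiableOn ℂ (dat q) (strip (1 / 2)) := by
  have h1 : DifferentiableOn ℂ jap (strip (1 / 2)) := by
    refine DifferentiableOn.cpow_const (by fun_prop) fun z hz => Or.inl ?_
    rw [re_one_add_sq]
    have : |z.im| < 1 / 2 := hz
    nlinarith [sq_abs z.im, abs_nonneg z.im, sq_nonneg z.re]
  unfold dat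
  exact DifferentiableOn.div (by fun_prop) (h1.pow _) fun z hz =>
    pow_ne_zero _ (jap_ne_zero (le_of_lt hz))

theorem norm_dat_le (q : ℕ) {z : ℂ} (hz : |z.im| ≤ 1 / 4) :
    ‖dat q z‖ ≤ 4 * 2 ^ (2 * q + 3) / (1 + |z.re|) ^ (q + 2) := by
  have h1 := norm_le_one_add hz
  have h2 := norm_jap_ge (hz.trans (by norm_num))
  have h3 : ‖1 + exp (-I * z)‖ ≤ 4 := by
    have e1 : ‖exp (-I * z)‖ ≤ Real.exp 1 := by
      rw [Complex.norm_exp]
      apply Real.exp_le_exp.2
      have := le_abs_self z.im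
      simp only [neg_mul, neg_re, mul_re, I_re, zero_mul, I_im, one_mul, zero_sub, neg_neg]
      linarith
    have e2 := norm_add_le 1 (exp (-I * z))
    rw [norm_one] at e2
    linarith [Real.exp_one_lt_d9]
  unfold dat
  rw [norm_div, norm_mul, norm_pow, norm_pow, norm_mul, norm_neg, Complex.norm_I, one_mul]
  calc ‖z‖ ^ (q + 1) * ‖1 + exp (-I * z)‖ / ‖jap z‖ ^ (2 * q + 3)
      ≤ (1 + |z.re|) ^ (q + 1) * 4 / ((1 + |z.re|) / 2) ^ (2 * q + 3) := by gcongr
    _ = _ := by rw [div_pow]; field_simp; ring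

theorem jap_real (k : ℝ) : jap k = (√(1 + k ^ 2) : ℝ) := by
  rw [Real.sqrt_eq_rpow, Complex.ofReal_cpow (by positivity), jap]
  push_cast
  norm_num

theorem dat_sym (q : ℕ) (k : ℝ) : dat q (-k) = conj (dat q k) := by
  have h1 : jap (-k) = jap k := by simp [jap]
  unfold dat
  rw [h1, jap_real]
  simp [← Complex.exp_conj]

/-- The modulus of the singular amplitude. -/
noncomputable def amp (q : ℕ) (k : ℝ) : ℝ := k ^ (2 * q + 2) / √(1 + k ^ 2) ^ (2 * q + 3)

theorem amp_nonneg (q : ℕ) (k : ℝ) : 0 ≤ amp q k := by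
  unfold amp
  have : 0 ≤ k ^ (2 * q + 2) := by
    rw [show 2 * q + 2 = 2 * (q + 1) by ring, pow_mul]; positivity
  positivity

theorem amp_ge (q : ℕ) {k : ℝ} (hk : 1 ≤ k) : 1 / (2 ^ (2 * q + 3) * k) ≤ amp q k := by
  have h1 : √(1 + k ^ 2) ≤ 2 * k := by
    rw [Real.sqrt_le_left (by linarith)]
    nlinarith
  have h2 : 0 < √(1 + k ^ 2) := Real.sqrt_pos.2 (by positivity)
  have hk0 : 0 < k := by linarith
  unfold amp
  calc 1 / (2 ^ (2 * q + 3) * k) = k ^ (2 * q + 2) / (2 * k) ^ (2 * q + 3) := by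
        rw [mul_pow]; field_simp; ring
    _ ≤ _ := by gcongr

theorem pow_mul_dat (q : ℕ) (k : ℝ) :
    (I * k) ^ (q + 1) * dat q k = amp q k * (1 + exp (-I * k)) := by
  have h1 : (I * k) ^ (q + 1) * (-I * k) ^ (q + 1) = (k : ℂ) ^ (2 * q + 2) := by
    rw [← mul_pow, show 2 * q + 2 = 2 * (q + 1) by ring, pow_mul]
    congr 1
    linear_combination (-(k : ℂ) ^ 2) * I_mul_I
  unfold dat amp
  rw [jap_real]
  push_cast
  rw [← h1]
  ring

theorem re_exp_mul {x : ℝ} (hx : x = 0 ∨ x = 1) (k : ℝ) :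
    (exp (I * k * x) * (1 + exp (-I * k))).re = 1 + Real.cos k := by
  have h1 : (exp (I * k)).re = Real.cos k := by rw [mul_comm, exp_ofReal_mul_I_re]
  have h2 : (exp (-I * k)).re = Real.cos k := by
    rw [show -I * k = ((-k : ℝ) : ℂ) * I by push_cast; ring, exp_ofReal_mul_I_re, Real.cos_neg]
  rcases hx with rfl | rfl
  · rw [ofReal_zero, mul_zero, Complex.exp_zero, one_mul, add_re, one_re, h2]
  · rw [ofReal_one, mul_one, mul_add, mul_one, ← Complex.exp_add,
      show I * k + -I * k = 0 by ring, Complex.exp_zero, add_re, one_re, h1, add_comm]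

theorem log_sub_le_integral {R : ℝ} (hR : 1 ≤ R) :
    Real.log R - 2 ≤ ∫ k in (1 : ℝ)..R, (1 + Real.cos k) / k := by
  have hne : ∀ k ∈ uIcc (1 : ℝ) R, k ≠ 0 := by
    intro k hk
    rw [uIcc_of_le hR] at hk
    linarith [hk.1]
  have c1 : ContinuousOn (fun k : ℝ => (1 + Real.cos k) / k) (uIcc 1 R) :=
    ContinuousOn.div (by fun_prop) (by fun_prop) hne
  have c2 : ContinuousOn (fun k : ℝ => (1 + Real.cos k) / k - (Real.sin k + 1) / k ^ 2)
      (uIcc 1 R) :=
    c1.sub (ContinuousOn.div (by fun_prop) (by fun_prop) fun k hk => pow_ne_zero _ (hne k hk))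
  have h1 : ∫ k in (1 : ℝ)..R, ((1 + Real.cos k) / k - (Real.sin k + 1) / k ^ 2) =
      (Real.log R + (Real.sin R + 1) / R) - (Real.log 1 + (Real.sin 1 + 1) / 1) := by
    refine intervalIntegral.integral_eq_sub_of_hasDerivAt
      (f := fun k => Real.log k + (Real.sin k + 1) / k) (fun k hk => ?_) c2.intervalIntegrable
    have hk0 := hne k hk
    refine ((Real.hasDerivAt_log hk0).add (((Real.hasDerivAt_sin k).add_const 1).div
      (hasDerivAt_id k) hk0)).congr_deriv ?_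
    simp only [id]
    field_simp
    ring
  have h2 : ∫ k in (1 : ℝ)..R, ((1 + Real.cos k) / k - (Real.sin k + 1) / k ^ 2) ≤
      ∫ k in (1 : ℝ)..R, (1 + Real.cos k) / k := by
    refine intervalIntegral.integral_mono_on hR c2.intervalIntegrable c1.intervalIntegrable
      fun k _ => ?_
    have : 0 ≤ (Real.sin k + 1) / k ^ 2 :=
      div_nonneg (by linarith [Real.neg_one_le_sin k]) (sq_nonneg k)
    linarith
  have h3 : 0 ≤ (Real.sin R + 1) / R :=
    div_nonneg (by linarith [Real.neg_one_le_sin R]) (by linarith)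
  rw [h1, Real.log_one] at h2
  linarith [Real.sin_le_one 1]

end Pool.Agent.P.MP_0afb51_an
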