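import Pool.Agent.P.MP_0afb51_an.Weight

/-!
From the Fourier side to physical space.
-/

namespace Pool.Agent.P.MP_0afb51_an

open Complex Set Filter Topology MeasureTheory
open scoped ComplexConjugate Nat Convolution

/-- Admissible functions of real frequency and time, of weight `m`. -/
structure Adm (σ : ℕ) (L : ℝ) (m : ℕ) (f : ℝ → ℝ → ℂ) : Prop where
  cont : Continuous fun p : ℝ × ℝ => f p.1 p.2
  bd : ∃ M : ℝ, 0 ≤ M ∧ ∀ k, ∀ t ∈ Icc 0 L, ‖f k t‖ ≤ M * (1 + |k|) ^ m * Om σ L k t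

/-- Multiplication by a power of `i k`. -/
noncomputable def Xp (i : ℕ) (f : ℝ → ℝ → ℂ) (k t : ℝ) : ℂ := (I * k) ^ i * f k t

/-- The inverse Fourier integral. -/
noncomputable def FT (f : ℝ → ℝ → ℂ) (x t : ℝ) : ℂ := ∫ k : ℝ, exp (I * k * x) * f k t

theorem norm_exp_I_mul (k x : ℝ) : ‖exp (I * k * x)‖ = 1 := by
  rw [Complex.norm_exp]; simp

theorem Adm.Xp {σ : ℕ} {L : ℝ} {m : ℕ} {f : ℝ → ℝ → ℂ} (hf : Adm σ L m f) (i : ℕ) :
    Adm σ L (m + i) (Xp i f) := by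
  obtain ⟨M, hM, hb⟩ := hf.bd
  refine ⟨Continuous.mul (by fun_prop) hf.cont, M, hM, fun k t ht => ?_⟩
  have h1 : ‖(I * k : ℂ) ^ i‖ ≤ (1 + |k|) ^ i := by
    rw [norm_pow, norm_mul, Complex.norm_I, one_mul, Complex.norm_real, Real.norm_eq_abs]
    gcongr
    linarith
  have h2 := hb k t ht
  unfold Pool.Agent.P.MP_0afb51_an.Xp
  rw [norm_mul]
  calc ‖(I * k : ℂ) ^ i‖ * ‖f k t‖ ≤ (1 + |k|) ^ i * (M * (1 + |k|) ^ m * Om σ L k t) := by gcongr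
    _ = _ := by ring

theorem Adm.mono {σ : ℕ} {L : ℝ} {m n : ℕ} {f : ℝ → ℝ → ℂ} (hf : Adm σ L m f) (h : m ≤ n) :
    Adm σ L n f := by
  obtain ⟨M, hM, hb⟩ := hf.bd
  refine ⟨hf.cont, M, hM, fun k t ht => (hb k t ht).trans ?_⟩
  have := Om_pos σ L k t
  gcongr
  linarith [abs_nonneg k]

theorem Adm.add {σ : ℕ} {L : ℝ} {m : ℕ} {f g : ℝ → ℝ → ℂ} (hf : Adm σ L m f)
    (hg : Adm σ L m g) : Adm σ L m fun k t => f k t + g k t := by
  obtain ⟨M, hM, hb⟩ := hf.bd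
  obtain ⟨N, hN, hc⟩ := hg.bd
  refine ⟨hf.cont.add hg.cont, M + N, by positivity, fun k t ht => ?_⟩
  refine (norm_add_le _ _).trans ?_
  linarith [hb k t ht, hc k t ht]

theorem exists_poly_exp_le {δ : ℝ} (hδ : 0 < δ) (n : ℕ) :
    ∃ C : ℝ, 0 ≤ C ∧ ∀ k : ℝ, (1 + |k|) ^ n * Real.exp (-(δ * |k|)) ≤ C * (1 + k ^ 2)⁻¹ := by
  refine ⟨((n + 2)! : ℝ) * Real.exp δ / δ ^ (n + 2), by positivity, fun k => ?_⟩
  have h1 := Real.pow_div_factorial_le_exp (x := δ * (1 + |k|)) (by positivity) (n + 2)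
  rw [div_le_iff₀ (by positivity), mul_pow] at h1
  have h2 : Real.exp (δ * (1 + |k|)) * Real.exp (-(δ * |k|)) = Real.exp δ := by
    rw [← Real.exp_add]; congr 1; ring
  have h3 : 1 + k ^ 2 ≤ (1 + |k|) ^ 2 := by nlinarith [abs_nonneg k, sq_abs k]
  rw [← div_eq_mul_inv, le_div_iff₀ (by positivity), le_div_iff₀ (by positivity)]
  calc (1 + |k|) ^ n * Real.exp (-(δ * |k|)) * (1 + k ^ 2) * δ ^ (n + 2)
      ≤ (1 + |k|) ^ n * Real.exp (-(δ * |k|)) * (1 + |k|) ^ 2 * δ ^ (n + 2) := by gcongr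
    _ = (δ ^ (n + 2) * (1 + |k|) ^ (n + 2)) * Real.exp (-(δ * |k|)) := by ring
    _ ≤ (Real.exp (δ * (1 + |k|)) * ((n + 2)! : ℝ)) * Real.exp (-(δ * |k|)) := by gcongr
    _ = _ := by rw [← h2]; ring

theorem Om_le_exp (σ : ℕ) {L δ t : ℝ} (h : δ ≤ rho L t) (k : ℝ) :
    Om σ L k t ≤ Real.exp (-(δ * |k|)) := by
  unfold Om
  rw [div_le_iff₀ (by positivity)]
  have h1 : Real.exp (-(rho L t * |k|)) ≤ Real.exp (-(δ * |k|)) :=
    Real.exp_le_exp.2 (by nlinarith [abs_nonneg k])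
  have h2 : 1 ≤ (1 + |k|) ^ σ := one_le_pow₀ (by linarith [abs_nonneg k])
  nlinarith [Real.exp_pos (-(δ * |k|))]

theorem rho_pos {L t : ℝ} (ht : t ∈ Ioo 0 L) : 0 < rho L t :=
  lt_max_of_lt_right (lt_min ht.1 (sub_pos.2 ht.2))

theorem Adm.loc {σ : ℕ} {L : ℝ} {m : ℕ} {f : ℝ → ℝ → ℂ} (hf : Adm σ L m f) {t₀ : ℝ}
    (ht₀ : t₀ ∈ Ioo 0 L) : ∃ C : ℝ, ∀ᶠ t in 𝓝 t₀, ∀ k, ‖f k t‖ ≤ C * (1 + k ^ 2)⁻¹ := by
  obtain ⟨M, hM, hb⟩ := hf.bd
  have hρ := rho_pos ht₀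
  obtain ⟨C, hC, hC'⟩ := exists_poly_exp_le (δ := rho L t₀ / 2) (by positivity) m
  refine ⟨M * C, ?_⟩
  have h1 : ∀ᶠ t in 𝓝 t₀, rho L t₀ / 2 < rho L t :=
    continuousAt_const.eventually_lt (continuous_rho L).continuousAt (by linarith)
  filter_upwards [h1, isOpen_Ioo.mem_nhds ht₀] with t ht ht' k
  have h2 := Om_le_exp σ ht.le k
  calc ‖f k t‖ ≤ M * (1 + |k|) ^ m * Om σ L k t := hb k t (Ioo_subset_Icc_self ht')
    _ ≤ M * (1 + |k|) ^ m * Real.exp (-(rho L t₀ / 2 * |k|)) := by gcongr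
    _ = M * ((1 + |k|) ^ m * Real.exp (-(rho L t₀ / 2 * |k|))) := by ring
    _ ≤ M * (C * (1 + k ^ 2)⁻¹) := mul_le_mul_of_nonneg_left (hC' k) hM
    _ = _ := by ring

theorem Adm.cont_k {σ : ℕ} {L : ℝ} {m : ℕ} {f : ℝ → ℝ → ℂ} (hf : Adm σ L m f) (t : ℝ) :
    Continuous fun k => f k t :=
  hf.cont.comp (Continuous.prodMk_left t)

theorem Adm.meas {σ : ℕ} {L : ℝ} {m : ℕ} {f : ℝ → ℝ → ℂ} (hf : Adm σ L m f) (x t : ℝ) :
    AEStronglyMeasurable (fun k : ℝ => exp (I * k * x) * f k t) volume :=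
  (Continuous.mul (by fun_prop) (hf.cont_k t)).aestronglyMeasurable

theorem Adm.integrable {σ : ℕ} {L : ℝ} {m : ℕ} {f : ℝ → ℝ → ℂ} (hf : Adm σ L m f) (x : ℝ)
    {t : ℝ} (ht : t ∈ Ioo 0 L) : Integrable fun k : ℝ => exp (I * k * x) * f k t := by
  obtain ⟨C, hC⟩ := hf.loc ht
  refine (integrable_inv_one_add_sq.const_mul C).mono' (hf.meas x t)
    (Eventually.of_forall fun k => ?_)
  rw [norm_mul, norm_exp_I_mul, one_mul]
  exact hC.self_of_nhds k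

theorem Adm.continuousOn_FT {σ : ℕ} {L : ℝ} {m : ℕ} {f : ℝ → ℝ → ℂ} (hf : Adm σ L m f) :
    ContinuousOn (fun p : ℝ × ℝ => FT f p.1 p.2) (univ ×ˢ Ioo 0 L) := by
  rintro ⟨x, t⟩ ⟨-, ht⟩
  obtain ⟨C, hC⟩ := hf.loc ht
  refine ContinuousAt.continuousWithinAt ?_
  refine continuousAt_of_dominated (bound := fun k => C * (1 + k ^ 2)⁻¹)
    (F := fun (p : ℝ × ℝ) (k : ℝ) => exp (I * k * p.1) * f k p.2)
    (Eventually.of_forall fun p => hf.meas p.1 p.2) ?_ (integrable_inv_one_add_sq.const_mul C)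
    (Eventually.of_forall fun k => Continuous.continuousAt ?_)
  · filter_upwards [(continuous_snd.tendsto (x, t)).eventually hC] with p hp
    refine Eventually.of_forall fun k => ?_
    rw [norm_mul, norm_exp_I_mul, one_mul]
    exact hp k
  · exact Continuous.mul (by fun_prop)
      (hf.cont.comp (f := fun p : ℝ × ℝ => (k, p.2)) (by fun_prop))

theorem Adm.hasDerivAt_x {σ : ℕ} {L : ℝ} {m : ℕ} {f : ℝ → ℝ → ℂ} (hf : Adm σ L m f) (i : ℕ)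
    (x : ℝ) {t : ℝ} (ht : t ∈ Ioo 0 L) :
    HasDerivAt (fun y => FT (Pool.Agent.P.MP_0afb51_an.Xp i f) y t)
      (FT (Pool.Agent.P.MP_0afb51_an.Xp (i + 1) f) x t) x := by
  obtain ⟨C, hC⟩ := (hf.Xp (i + 1)).loc ht
  refine (hasDerivAt_integral_of_dominated_loc_of_deriv_le (μ := volume) (s := univ)
    (F := fun (y k : ℝ) => exp (I * k * y) * Pool.Agent.P.MP_0afb51_an.Xp i f k t)
    (F' := fun (y k : ℝ) => exp (I * k * y) * Pool.Agent.P.MP_0afb51_an.Xp (i + 1) f k t)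
    (bound := fun k => C * (1 + k ^ 2)⁻¹) univ_mem
    (Eventually.of_forall fun y => (hf.Xp i).meas y t) ((hf.Xp i).integrable x ht)
    ((hf.Xp (i + 1)).meas x t) (Eventually.of_forall fun k y _ => ?_)
    (integrable_inv_one_add_sq.const_mul C) (Eventually.of_forall fun k y _ => ?_)).2
  · rw [norm_mul, norm_exp_I_mul, one_mul]
    exact hC.self_of_nhds k
  · have h1 : HasDerivAt (fun y : ℝ => I * k * (y : ℂ)) (I * k) y := by
      simpa using (Complex.ofRealCLM.hasDerivAt (x := y)).const_mul (I * k)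
    refine (h1.cexp.mul_const _).congr_deriv ?_
    unfold Pool.Agent.P.MP_0afb51_an.Xp
    ring

theorem Adm.hasDerivAt_t {σ : ℕ} {L : ℝ} {m n : ℕ} {f g : ℝ → ℝ → ℂ} (hf : Adm σ L m f)
    (hg : Adm σ L n g) (hd : ∀ k, ∀ t ∈ Ioo 0 L, HasDerivAt (f k) (g k t) t)
    (x : ℝ) {t : ℝ} (ht : t ∈ Ioo 0 L) : HasDerivAt (FT f x) (FT g x t) t := by
  obtain ⟨C, hC⟩ := hg.loc ht
  refine (hasDerivAt_integral_of_dominated_loc_of_deriv_le (μ := volume)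
    (s := {s | s ∈ Ioo 0 L ∧ ∀ k, ‖g k s‖ ≤ C * (1 + k ^ 2)⁻¹})
    (F := fun (s k : ℝ) => exp (I * k * x) * f k s)
    (F' := fun (s k : ℝ) => exp (I * k * x) * g k s)
    (bound := fun k => C * (1 + k ^ 2)⁻¹) (Filter.inter_mem (isOpen_Ioo.mem_nhds ht) hC)
    (Eventually.of_forall fun s => hf.meas x s) (hf.integrable x ht)
    (hg.meas x t) (Eventually.of_forall fun k s hs => ?_)
    (integrable_inv_one_add_sq.const_mul C) (Eventually.of_forall fun k s hs => ?_)).2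
  · rw [norm_mul, norm_exp_I_mul, one_mul]
    exact hs.2 k
  · exact (hd k s hs.1).const_mul _

theorem pow_mul_Om_le {σ m : ℕ} (h : m + 2 ≤ σ) (L k t : ℝ) :
    (1 + |k|) ^ m * Om σ L k t ≤ (1 + k ^ 2)⁻¹ := by
  have h1 := Om_le σ L k t
  have h2 : (1 + |k|) ^ (m + 2) ≤ (1 + |k|) ^ σ :=
    pow_le_pow_right₀ (by linarith [abs_nonneg k]) h
  have h3 := one_div_pow_le (σ := 2) le_rfl k
  calc (1 + |k|) ^ m * Om σ L k t ≤ (1 + |k|) ^ m * (1 / (1 + |k|) ^ (m + 2)) := by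
        gcongr
        exact h1.trans (by gcongr)
    _ = 1 / (1 + |k|) ^ 2 := by field_simp; ring
    _ ≤ _ := h3

theorem Adm.bounded_FT {σ : ℕ} {L : ℝ} {m : ℕ} {f : ℝ → ℝ → ℂ} (hf : Adm σ L m f)
    (h : m + 2 ≤ σ) : ∃ C : ℝ, ∀ x, ∀ t ∈ Icc 0 L, ‖FT f x t‖ ≤ C := by
  obtain ⟨M, hM, hb⟩ := hf.bd
  refine ⟨∫ k : ℝ, M * (1 + k ^ 2)⁻¹, fun x t ht => ?_⟩
  refine norm_integral_le_of_norm_le (integrable_inv_one_add_sq.const_mul M)
    (Eventually.of_forall fun k => ?_)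
  rw [norm_mul, norm_exp_I_mul, one_mul]
  refine (hb k t ht).trans ?_
  rw [mul_assoc]
  gcongr
  exact pow_mul_Om_le h L k t

theorem FT_conv {σ : ℕ} {L : ℝ} {m : ℕ} {f H : ℝ → ℝ → ℂ} (hf : Adm σ L m f) {t : ℝ}
    (ht : t ∈ Ioo 0 L) (hH : ∀ k, H k t = ∫ l : ℝ, f (k - l) t * f l t) (x : ℝ) :
    FT H x t = FT f x t * FT f x t := by
  have h := integral_convolution (ContinuousLinearMap.mul ℂ ℂ) (μ := volume) (ν := volume)
    (hf.integrable x ht) (hf.integrable x ht)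
  simp only [ContinuousLinearMap.mul_apply'] at h
  unfold FT
  rw [← h]
  congr 1
  funext k
  rw [hH, convolution_def, ← integral_const_mul]
  congr 1
  funext l
  simp only [ContinuousLinearMap.mul_apply']
  have : exp (I * k * x) = exp (I * l * x) * exp (I * ((k - l : ℝ) : ℂ) * x) := by
    rw [← Complex.exp_add]; congr 1; push_cast; ring
  rw [this]
  ring

theorem FT_add {σ : ℕ} {L : ℝ} {m n : ℕ} {f g : ℝ → ℝ → ℂ} (hf : Adm σ L m f) (hg : Adm σ L n g)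
    (x : ℝ) {t : ℝ} (ht : t ∈ Ioo 0 L) :
    FT (fun k t => f k t + g k t) x t = FT f x t + FT g x t := by
  unfold FT
  rw [← integral_add (hf.integrable x ht) (hg.integrable x ht)]
  congr 1
  funext k
  ring

theorem conj_FT {f : ℝ → ℝ → ℂ} {t : ℝ} (hs : ∀ k, f (-k) t = conj (f k t)) (x : ℝ) :
    conj (FT f x t) = FT f x t := by
  unfold FT
  rw [← integral_conj, ← integral_neg_eq_self]
  congr 1
  funext k
  rw [map_mul, hs, conj_conj, ← Complex.exp_conj]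
  congr 2
  simp

end Pool.Agent.P.MP_0afb51_an
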