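import Pool.Agent.P.MP_0afb51_an.Fixed
import Pool.Agent.P.MP_0afb51_an.Phys
import Pool.Agent.P.MP_0afb51_an.Datum

/-!
The ordinary differential equations in time at real frequencies, and the blow-up of the linear
part at the two singular points.
-/

namespace Pool.Agent.P.MP_0afb51_an

open Complex Set Filter Topology MeasureTheory
open scoped ComplexConjugate

theorem hasDerivAt_I1 {H : ℂ → ℝ → ℂ} (hH : Continuous fun p : ℂ × ℝ => H p.1 p.2) (z : ℂ)
    (t : ℝ) : HasDerivAt (I1 H z) (cc t z * H z t) t := by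
  have cH : Continuous fun s => H z s := hH.comp (Continuous.prodMk_right z)
  have h : Continuous fun s => cc s z * H z s := by fun_prop
  exact (h.integral_hasStrictDerivAt 0 t).hasDerivAt

theorem hasDerivAt_I2 (L : ℝ) {H : ℂ → ℝ → ℂ} (hH : Continuous fun p : ℂ × ℝ => H p.1 p.2) (z : ℂ)
    (t : ℝ) : HasDerivAt (I2 L H z) (-(y2 L t z * H z t)) t := by
  have cH : Continuous fun s => H z s := hH.comp (Continuous.prodMk_right z)
  have h : Continuous fun s => y2 L s z * H z s := by fun_prop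
  have h1 := (h.integral_hasStrictDerivAt L t).hasDerivAt.fun_neg
  have h2 : I2 L H z = fun u => -∫ s in L..u, y2 L s z * H z s := by
    funext u
    rw [I2, intervalIntegral.integral_symm L]
  rw [h2]
  exact h1

theorem hasDerivAt_mu_ss (z : ℂ) (t : ℝ) :
    HasDerivAt (fun s => mu z * ss s z) (mu z * cc t z) t :=
  (hasDerivAt_ss z t).const_mul _

theorem hasDerivAt_Duh (L : ℝ) {H : ℂ → ℝ → ℂ} (hH : Continuous fun p : ℂ × ℝ => H p.1 p.2)
    (z : ℂ) (t : ℝ) : HasDerivAt (Duh L H z) (Duhd L H z t) t := by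
  refine ((((hasDerivAt_y2 L z t).fun_mul (hasDerivAt_I1 hH z t)).fun_add
    ((hasDerivAt_cc z t).fun_mul (hasDerivAt_I2 L hH z t))).const_mul
      (z ^ 2 / QQ L z)).congr_deriv ?_
  unfold Duhd
  ring

theorem hasDerivAt_Duhd (L : ℝ) {H : ℂ → ℝ → ℂ} (hH : Continuous fun p : ℂ × ℝ => H p.1 p.2)
    {z : ℂ} (hz : QQ L z ≠ 0) (t : ℝ) :
    HasDerivAt (Duhd L H z) (mu z * Duh L H z t - z ^ 2 * H z t) t := by
  refine ((((hasDerivAt_y2d L z t).fun_mul (hasDerivAt_I1 hH z t)).fun_add
    ((hasDerivAt_mu_ss z t).fun_mul (hasDerivAt_I2 L hH z t))).const_mul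
      (z ^ 2 / QQ L z)).congr_deriv ?_
  have hw := wronskian L t z
  have hq : z ^ 2 / QQ L z * QQ L z = z ^ 2 := div_mul_cancel₀ _ hz
  unfold Duh
  linear_combination (z ^ 2 / QQ L z * H z t) * hw - H z t * hq

theorem hasDerivAt_lin (L : ℝ) (φ : ℂ → ℂ) (z : ℂ) (t : ℝ) :
    HasDerivAt (lin L φ z) (lind L φ z t) t :=
  (hasDerivAt_cc z t).const_mul _

theorem hasDerivAt_lind (L : ℝ) (φ : ℂ → ℂ) (z : ℂ) (t : ℝ) :
    HasDerivAt (lind L φ z) (mu z * lin L φ z t) t := by
  refine ((hasDerivAt_mu_ss z t).const_mul (φ z * (cc L z / QQ L z))).congr_deriv ?_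
  unfold lin
  ring

theorem Bd.adm {σ : ℕ} {L M : ℝ} {w : ℂ → ℝ → ℂ} (hw : Bd σ L M w) :
    Adm σ L 0 fun k t => w k t :=
  ⟨hw.comp (by fun_prop) continuous_snd, M, hw.nonneg, fun k t _ => by simpa using hw.bd k t⟩

theorem continuous_inv_QQ (L : ℝ) : Continuous fun k : ℝ => (QQ L k)⁻¹ :=
  Continuous.inv₀ (by fun_prop) fun k => norm_pos_iff.1 (one_pos.trans_le (one_le_norm_QQ L k))

section

variable {σ : ℕ} {L η K ε M : ℝ} {φ : ℂ → ℂ} {H : ℂ → ℝ → ℂ}

theorem continuous_real_of_strip (hφd : DifferentiableOn ℂ φ (strip (1 / 2))) :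
    Continuous fun k : ℝ => φ k :=
  hφd.continuousOn.comp_continuous continuous_ofReal fun k => by simp [strip]

theorem adm_lin (hK : KB L η K) (hφd : DifferentiableOn ℂ φ (strip (1 / 2))) (hε : 0 ≤ ε)
    (hφ : ∀ z : ℂ, |z.im| ≤ η → ‖φ z‖ ≤ ε / (1 + |z.re|) ^ σ) :
    Adm σ L 0 fun k t => lin L φ k t := by
  have hKp := hK.K_pos
  constructor
  · have c1 := (continuous_real_of_strip hφd).comp (continuous_fst (X := ℝ) (Y := ℝ))
    have c2 := (continuous_inv_QQ L).comp (continuous_fst (X := ℝ) (Y := ℝ))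
    have c5 : Continuous fun p : ℝ × ℝ => (p.1 : ℂ) := by fun_prop
    simp only [lin, div_eq_mul_inv]
    exact (c1.mul ((continuous_cc_comp continuous_const c5).mul c2)).mul
      (continuous_cc_comp continuous_snd c5)
  · refine ⟨ε * K * Real.exp (3 * L), by positivity, fun k t ht => ?_⟩
    have hk : |(k : ℂ).im| ≤ η := by simpa using hK.eta_pos.le
    have := lin_aux hK hk hε (hφ _ hk) ht (β := 1) zero_le_one (B := cc t k)
      (by simpa using norm_cc_le _ ht.1)
    simpa [lin] using this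

theorem adm_lind (hK : KB L η K) (hφd : DifferentiableOn ℂ φ (strip (1 / 2))) (hε : 0 ≤ ε)
    (hφ : ∀ z : ℂ, |z.im| ≤ η → ‖φ z‖ ≤ ε / (1 + |z.re|) ^ σ) :
    Adm σ L 2 fun k t => lind L φ k t := by
  have hKp := hK.K_pos
  constructor
  · have c1 := (continuous_real_of_strip hφd).comp (continuous_fst (X := ℝ) (Y := ℝ))
    have c2 := (continuous_inv_QQ L).comp (continuous_fst (X := ℝ) (Y := ℝ))
    have c5 : Continuous fun p : ℝ × ℝ => (p.1 : ℂ) := by fun_prop
    simp only [lind, div_eq_mul_inv]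
    exact (c1.mul ((continuous_cc_comp continuous_const c5).mul c2)).mul
      ((continuous_mu.comp c5).mul (continuous_ss_comp continuous_snd c5))
  · refine ⟨ε * K * Real.exp (3 * L) * K, by positivity, fun k t ht => ?_⟩
    have hk : |(k : ℂ).im| ≤ η := by simpa using hK.eta_pos.le
    have := lin_aux hK hk hε (hφ _ hk) ht (β := K * (1 + |(k : ℂ).re|) ^ 2) (by positivity)
      (B := mu k * ss t k) (hK.d1 _ hk t ht)
    simp only [ofReal_re] at this
    exact this.trans (le_of_eq (by ring))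

theorem adm_Duhd (hL : 0 ≤ L) (hK : KB L η K) (hH : Bd σ L M H) :
    Adm σ L 2 fun k t => Duhd L H k t := by
  have hKp := hK.K_pos
  have hM := hH.nonneg
  constructor
  · have c2 := (continuous_inv_QQ L).comp (continuous_fst (X := ℝ) (Y := ℝ))
    have c5 : Continuous fun p : ℝ × ℝ => (p.1 : ℂ) := by fun_prop
    have c3 : Continuous fun p : ℝ × ℝ => I1 H p.1 p.2 :=
      (continuous_I1 hH.cont).comp (f := fun p : ℝ × ℝ => ((p.1 : ℂ), p.2)) (by fun_prop)
    have c4 : Continuous fun p : ℝ × ℝ => I2 L H p.1 p.2 :=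
      (continuous_I2 L hH.cont).comp (f := fun p : ℝ × ℝ => ((p.1 : ℂ), p.2)) (by fun_prop)
    simp only [Duhd, div_eq_mul_inv]
    exact ((c5.pow 2).mul c2).mul (((continuous_y2d_comp L continuous_snd c5).mul c3).add
      (((continuous_mu.comp c5).mul (continuous_ss_comp continuous_snd c5)).mul c4))
  · refine ⟨Cg L K * M, by unfold Cg; positivity, fun k t ht => ?_⟩
    have hk : |(k : ℂ).im| ≤ η := by simpa using hK.eta_pos.le
    simpa using Duhd_bound hK hH hk ht

theorem adm_Xp_Duh (hL : 0 ≤ L) (hK : KB L η K) (hH : Bd σ L M H) (q : ℕ) :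
    Adm σ L q (Xp (q + 1) fun k t => Duh L H k t) := by
  have hKp := hK.K_pos
  have hM := hH.nonneg
  constructor
  · have c2 := (continuous_inv_QQ L).comp (continuous_fst (X := ℝ) (Y := ℝ))
    have c5 : Continuous fun p : ℝ × ℝ => (p.1 : ℂ) := by fun_prop
    have c3 : Continuous fun p : ℝ × ℝ => I1 H p.1 p.2 :=
      (continuous_I1 hH.cont).comp (f := fun p : ℝ × ℝ => ((p.1 : ℂ), p.2)) (by fun_prop)
    have c4 : Continuous fun p : ℝ × ℝ => I2 L H p.1 p.2 :=
      (continuous_I2 L hH.cont).comp (f := fun p : ℝ × ℝ => ((p.1 : ℂ), p.2)) (by fun_prop)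
    simp only [Xp, Duh, div_eq_mul_inv]
    exact Continuous.mul (by fun_prop) (((c5.pow 2).mul c2).mul
      (((continuous_y2_comp L continuous_snd c5).mul c3).add
        ((continuous_cc_comp continuous_snd c5).mul c4)))
  · refine ⟨Cg L K * M, by unfold Cg; positivity, fun k t ht => ?_⟩
    have hk : |(k : ℂ).im| ≤ η := by simpa using hK.eta_pos.le
    have h := Duh_bound' hK hH hk ht
    simp only [ofReal_re] at h
    have h1 : ‖(I * k : ℂ) ^ (q + 1)‖ ≤ (1 + |k|) ^ (q + 1) := by
      rw [norm_pow, norm_mul, Complex.norm_I, one_mul, Complex.norm_real, Real.norm_eq_abs]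
      gcongr
      linarith
    unfold Xp
    rw [norm_mul]
    calc ‖(I * k : ℂ) ^ (q + 1)‖ * ‖Duh L H k t‖ ≤ (1 + |k|) ^ (q + 1) * ‖Duh L H k t‖ := by gcongr
      _ = (1 + |k|) ^ q * ((1 + |k|) * ‖Duh L H k t‖) := by ring
      _ ≤ (1 + |k|) ^ q * (Cg L K * M * Om σ L k t) := by gcongr
      _ = _ := by ring

end

/-- The real amplification factor of the linear solution. -/
noncomputable def EE (L k t : ℝ) : ℝ := (cc L k).re / (1 + (cc L k).re ^ 2) * (cc t k).re

theorem cc_real (τ k : ℝ) : cc τ k = ((cc τ k).re : ℂ) := by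
  apply Complex.ext <;> simp [cc_im]

theorem re_integrand (q : ℕ) (L c : ℝ) {x : ℝ} (hx : x = 0 ∨ x = 1) (k t : ℝ) :
    (exp (I * k * x) * Xp (q + 1) (fun k t => lin L (fun z => c * dat q z) k t) k t).re =
      c * amp q k * EE L k t * (1 + Real.cos k) := by
  have h1 : cc L k / QQ L k * cc t k = (EE L k t : ℂ) := by
    rw [QQ_real, EE]
    push_cast
    rw [← cc_real, ← cc_real]
  have h2 : exp (I * k * x) * Xp (q + 1) (fun k t => lin L (fun z => c * dat q z) k t) k t =
      ((c * amp q k * EE L k t : ℝ) : ℂ) * (exp (I * k * x) * (1 + exp (-I * k))) := by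
    have h3 := pow_mul_dat q k
    unfold Xp lin
    push_cast
    rw [← h1]
    linear_combination (exp (I * k * x) * c * (cc L k / QQ L k * cc t k)) * h3
  rw [h2, re_ofReal_mul, re_exp_mul hx]

theorem blowup_lin {q : ℕ} {L c : ℝ} (hL : 0 < L) (hc : 0 < c)
    (hA : Adm (q + 2) L 0 fun k t => lin L (fun z => c * dat q z) k t) {x : ℝ}
    (hx : x = 0 ∨ x = 1) (B : ℝ) :
    ∀ᶠ t in 𝓝[<] L,
      B ≤ (FT (Xp (q + 1) fun k t => lin L (fun z => c * dat q z) k t) x t).re := by
  have hX := hA.Xp (q + 1)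
  set f := Xp (q + 1) fun k t => lin L (fun z => c * dat q z) k t with hf
  let h : ℝ → ℝ → ℝ := fun t k => (exp (I * k * x) * f k t).re
  have hform : ∀ t k, h t k = c * amp q k * EE L k t * (1 + Real.cos k) :=
    fun t k => re_integrand q L c hx k t
  have hcont : Continuous fun p : ℝ × ℝ => h p.1 p.2 := by
    refine Complex.continuous_re.comp (Continuous.mul (by fun_prop) ?_)
    exact hX.cont.comp (f := fun p : ℝ × ℝ => (p.2, p.1)) (by fun_prop)
  obtain ⟨M, hM, hb⟩ := hX.bd
  have hsmall : ∀ t ∈ Icc 0 L, ∀ k ∈ Icc (-1 : ℝ) 1, ‖h t k‖ ≤ M * 2 ^ (0 + (q + 1)) := by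
    intro t ht k hk
    have h1 : |k| ≤ 1 := abs_le.2 hk
    have h2 := Om_le_one (q + 2) L k t
    have h3 := Om_pos (q + 2) L k t
    refine (Complex.abs_re_le_norm _).trans ?_
    rw [norm_mul, norm_exp_I_mul, one_mul]
    calc ‖f k t‖ ≤ M * (1 + |k|) ^ (0 + (q + 1)) * Om (q + 2) L k t := hb k t ht
      _ ≤ M * 2 ^ (0 + (q + 1)) * 1 := by gcongr; linarith
      _ = _ := mul_one _
  have hpos : ∀ t k, 1 ≤ |k| → 0 ≤ h t k := by
    intro t k hk
    rw [hform]
    have h1 := one_le_cc_re L k hk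
    have h2 := one_le_cc_re t k hk
    have h3 := amp_nonneg q k
    have h4 : 0 ≤ 1 + Real.cos k := by linarith [Real.neg_one_le_cos k]
    have h5 : 0 ≤ EE L k t := by unfold EE; positivity
    positivity
  set c' : ℝ := c / (2 * 2 ^ (2 * q + 3)) with hc'
  have hc'pos : 0 < c' := by positivity
  set B' : ℝ := |B| + M * 2 ^ (0 + (q + 1)) * 2 with hB'
  have hB'0 : 0 ≤ B' := by positivity
  set R : ℝ := Real.exp (B' / c' + 3) with hR
  have hR1 : 1 ≤ R := Real.one_le_exp (by positivity)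
  have hend : B' < ∫ k in (1 : ℝ)..R, h L k := by
    have h1 := log_sub_le_integral hR1
    rw [hR, Real.log_exp, ← hR] at h1
    have c1 : ContinuousOn (fun k : ℝ => (1 + Real.cos k) / k) (uIcc 1 R) := by
      refine ContinuousOn.div (by fun_prop) (by fun_prop) fun k hk => ?_
      rw [uIcc_of_le hR1] at hk
      linarith [hk.1]
    have h2 : ∫ k in (1 : ℝ)..R, c' * ((1 + Real.cos k) / k) ≤ ∫ k in (1 : ℝ)..R, h L k := by
      refine intervalIntegral.integral_mono_on hR1 (c1.intervalIntegrable.const_mul _)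
        ((hcont.comp (Continuous.prodMk_right L)).intervalIntegrable _ _) fun k hk => ?_
      have hk0 : 0 < k := by linarith [hk.1]
      have e1 := amp_ge q hk.1
      have e2 := one_le_cc_re L k (by rw [abs_of_pos hk0]; exact hk.1)
      have e3 : 1 / 2 ≤ EE L k L := by
        unfold EE
        rw [div_mul_eq_mul_div, le_div_iff₀ (by positivity)]
        nlinarith
      have e4 : 0 ≤ 1 + Real.cos k := by linarith [Real.neg_one_le_cos k]
      rw [hform]
      calc c' * ((1 + Real.cos k) / k)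
          = c * (1 / (2 ^ (2 * q + 3) * k)) * (1 / 2) * (1 + Real.cos k) := by
            rw [hc']; field_simp
        _ ≤ _ := by
            gcongr
            exact mul_nonneg hc.le (amp_nonneg q k)
    rw [intervalIntegral.integral_const_mul] at h2
    have h3 : c' * (B' / c' + 3 - 2) ≤ c' * ∫ k in (1 : ℝ)..R, (1 + Real.cos k) / k := by gcongr
    have h4 : c' * (B' / c' + 3 - 2) = B' + c' := by field_simp; ring
    linarith
  have hct : Continuous fun t => ∫ k in (1 : ℝ)..R, h t k :=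
    intervalIntegral.continuous_parametric_intervalIntegral_of_continuous' hcont 1 R
  have hev : ∀ᶠ t in 𝓝 L, B' < ∫ k in (1 : ℝ)..R, h t k :=
    continuousAt_const.eventually_lt hct.continuousAt hend
  filter_upwards [nhdsWithin_le_nhds hev, Ioo_mem_nhdsLT hL] with t ht htI
  have hint := hX.integrable x htI
  have hint' : Integrable (h t) := hint.re
  have e1 : (FT f x t).re = ∫ k, h t k := by
    have := integral_re hint
    simp only [RCLike.re_to_complex] at this
    exact this.symm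
  have e2 := integral_add_compl (measurableSet_Icc (a := (-1 : ℝ)) (b := 1)) hint'
  have e3 : ‖∫ k in Icc (-1 : ℝ) 1, h t k‖ ≤
      M * 2 ^ (0 + (q + 1)) * volume.real (Icc (-1 : ℝ) 1) :=
    norm_setIntegral_le_of_norm_le_const (by simp) (hsmall t (Ioo_subset_Icc_self htI))
  have e4 : volume.real (Icc (-1 : ℝ) 1) = 2 := by
    rw [Real.volume_real_Icc]; norm_num
  have e5 : ∫ k in Ioc (1 : ℝ) R, h t k ≤ ∫ k in (Icc (-1 : ℝ) 1)ᶜ, h t k := by
    refine setIntegral_mono_set hint'.integrableOn ?_ (LE.le.eventuallyLE ?_)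
    · refine (ae_restrict_iff' measurableSet_Icc.compl).2 (Eventually.of_forall fun k hk => ?_)
      apply hpos
      by_contra hlt
      exact hk (abs_le.1 (not_le.1 hlt).le)
    · intro k hk hk'
      linarith [hk.1, hk'.2]
  rw [intervalIntegral.integral_of_le hR1] at ht
  rw [e4, Real.norm_eq_abs] at e3
  rw [e1, ← e2]
  linarith [neg_abs_le (∫ k in Icc (-1 : ℝ) 1, h t k), le_abs_self B]

end Pool.Agent.P.MP_0afb51_an
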