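import Pool.Agent.P.MP_0afb51_an.Phys

/-!
Spatial decay from holomorphy in a strip.
-/

namespace Pool.Agent.P.MP_0afb51_an

open Complex Set Filter Topology MeasureTheory

theorem tendsto_inv_one_add_sq_atTop : Tendsto (fun k : ℝ => (1 + k ^ 2)⁻¹) atTop (𝓝 0) :=
  tendsto_inv_atTop_zero.comp (tendsto_atTop_add_const_left _ _ (tendsto_pow_atTop two_ne_zero))

theorem tendsto_inv_one_add_sq_atBot : Tendsto (fun k : ℝ => (1 + k ^ 2)⁻¹) atBot (𝓝 0) := by
  refine (tendsto_inv_one_add_sq_atTop.comp tendsto_neg_atBot_atTop).congr fun k => ?_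
  simp

theorem decay {σ : ℕ} {L M η δ : ℝ} (hη : 0 < η) (hη' : η ≤ 1 / 4) (hδ : 0 < δ) {w : ℂ → ℝ → ℂ}
    (hw : Bd σ L M w) (hd : ∀ t, DifferentiableOn ℂ (fun z => w z t) (strip η)) (i N : ℕ) :
    ∃ C : ℝ, ∀ x t, δ ≤ rho L t →
      (1 + |x|) ^ N * ‖FT (Xp i fun k t => w k t) x t‖ ≤ C := by
  obtain ⟨C₁, hC₁, h₁⟩ := exists_poly_exp_le hδ i
  obtain ⟨C₂, hC₂, h₂⟩ := exists_poly_exp_le (half_pos hη) N
  have hM := hw.nonneg
  refine ⟨C₂ * (M * C₁ * Real.pi), fun x t ht => ?_⟩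
  let f : ℂ → ℂ := fun z => exp (I * z * x) * ((I * z) ^ i * w z t)
  have hb : ∀ z ∈ strip η, ‖f z‖ ≤ Real.exp (-(z.im * x)) * (M * C₁ * (1 + z.re ^ 2)⁻¹) := by
    intro z hz
    have e1 : ‖exp (I * z * x)‖ = Real.exp (-(z.im * x)) := by
      rw [Complex.norm_exp]; simp
    have e2 : ‖(I * z) ^ i‖ ≤ (1 + |z.re|) ^ i := by
      rw [norm_pow, norm_mul, Complex.norm_I, one_mul]
      have h1 := Complex.norm_le_abs_re_add_abs_im z
      have h2 : |z.im| < η := hz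
      gcongr
      linarith
    have e3 : ‖w z t‖ ≤ M * Real.exp (-(δ * |z.re|)) :=
      (hw.bd z t).trans (mul_le_mul_of_nonneg_left (Om_le_exp σ ht _) hM)
    simp only [f]
    rw [norm_mul, norm_mul ((I * z) ^ i), e1]
    refine mul_le_mul_of_nonneg_left ?_ (Real.exp_pos _).le
    calc ‖(I * z) ^ i‖ * ‖w z t‖ ≤ (1 + |z.re|) ^ i * (M * Real.exp (-(δ * |z.re|))) := by gcongr
      _ = M * ((1 + |z.re|) ^ i * Real.exp (-(δ * |z.re|))) := by ring
      _ ≤ M * (C₁ * (1 + z.re ^ 2)⁻¹) := mul_le_mul_of_nonneg_left (h₁ _) hM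
      _ = _ := by ring
  obtain ⟨y, hy1, hy2⟩ : ∃ y : ℝ, |y| < η ∧ y * x = η / 2 * |x| := by
    rcases le_total 0 x with h | h
    · exact ⟨η / 2, by rw [abs_of_pos (half_pos hη)]; linarith, by rw [abs_of_nonneg h]⟩
    · exact ⟨-(η / 2), by rw [abs_neg, abs_of_pos (half_pos hη)]; linarith,
        by rw [abs_of_nonpos h]; ring⟩
  have hshift := integral_shift (f := f) (η := η)
    (g := fun k => Real.exp (η * |x|) * (M * C₁ * (1 + k ^ 2)⁻¹)) ?_ ?_ ?_ ?_ ?_ hy1
  · have e : FT (Xp i fun k t => w k t) x t = ∫ k : ℝ, f k := rfl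
    have hn : ‖∫ k : ℝ, f (k + y * I)‖ ≤
        ∫ k : ℝ, Real.exp (-(η / 2 * |x|)) * (M * C₁ * (1 + k ^ 2)⁻¹) := by
      refine norm_integral_le_of_norm_le ((integrable_inv_one_add_sq.const_mul _).const_mul _)
        (Eventually.of_forall fun k => ?_)
      have := hb (k + y * I) (by simpa [strip] using hy1)
      simpa [hy2] using this
    rw [integral_const_mul, integral_const_mul, integral_univ_inv_one_add_sq] at hn
    rw [e, hshift]
    have h3 : C₂ * (1 + x ^ 2)⁻¹ ≤ C₂ * 1 := by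
      gcongr
      exact inv_le_one_of_one_le₀ (by nlinarith [sq_nonneg x])
    calc (1 + |x|) ^ N * ‖∫ k : ℝ, f (k + y * I)‖
        ≤ (1 + |x|) ^ N * (Real.exp (-(η / 2 * |x|)) * (M * C₁ * Real.pi)) := by gcongr
      _ = ((1 + |x|) ^ N * Real.exp (-(η / 2 * |x|))) * (M * C₁ * Real.pi) := by ring
      _ ≤ C₂ * (M * C₁ * Real.pi) := by
        gcongr
        linarith [h₂ x]
  · simp only [f]
    exact DifferentiableOn.mul (by fun_prop) (DifferentiableOn.mul (by fun_prop) (hd t))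
  · intro z hz
    refine (hb z hz).trans ?_
    gcongr
    have h2 : |z.im| < η := hz
    have h3 := neg_abs_le (z.im * x)
    rw [abs_mul] at h3
    nlinarith [abs_nonneg x]
  · exact (integrable_inv_one_add_sq.const_mul _).const_mul _
  · simpa using (tendsto_inv_one_add_sq_atTop.const_mul (M * C₁)).const_mul (Real.exp (η * |x|))
  · simpa using (tendsto_inv_one_add_sq_atBot.const_mul (M * C₁)).const_mul (Real.exp (η * |x|))

end Pool.Agent.P.MP_0afb51_an
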