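import Mathlib

/-!
Joint smoothness and bounds for all mixed derivatives, through differential polynomials graded by
the parabolic weight.
-/

namespace Pool.Agent.P.MP_0afb51_an

open Set Filter Topology
open scoped ContDiff

/-- The data: `u i` is the `i`-th space derivative of the solution, `v i` that of its time
derivative, `p i` that of its square. -/
structure Chain (L : ℝ) (u v p : ℕ → ℝ × ℝ → ℂ) : Prop where
  cu : ∀ i, ContinuousOn (u i) (univ ×ˢ Ioo 0 L)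
  cv : ∀ i, ContinuousOn (v i) (univ ×ˢ Ioo 0 L)
  xu : ∀ i x, ∀ t ∈ Ioo 0 L, HasDerivAt (fun y => u i (y, t)) (u (i + 1) (x, t)) x
  xv : ∀ i x, ∀ t ∈ Ioo 0 L, HasDerivAt (fun y => v i (y, t)) (v (i + 1) (x, t)) x
  xp : ∀ i x, ∀ t ∈ Ioo 0 L, HasDerivAt (fun y => p i (y, t)) (p (i + 1) (x, t)) x
  tu : ∀ i x, ∀ t ∈ Ioo 0 L, HasDerivAt (fun s => u i (x, s)) (v i (x, t)) t
  tv : ∀ i x, ∀ t ∈ Ioo 0 L,
    HasDerivAt (fun s => v i (x, s)) (u (i + 4) (x, t) + u (i + 2) (x, t) + p (i + 2) (x, t)) t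
  p0 : ∀ x, ∀ t ∈ Ioo 0 L, p 0 (x, t) = u 0 (x, t) * u 0 (x, t)

/-- Differential polynomials all of whose factors have weight at most `m`. -/
def DP (u v : ℕ → ℝ × ℝ → ℂ) (m : ℕ) : Subsemiring (ℝ × ℝ → ℂ) :=
  Subsemiring.closure {f | (∃ i, i ≤ m ∧ f = u i) ∨ ∃ i, i + 2 ≤ m ∧ f = v i}

variable {L : ℝ} {u v p : ℕ → ℝ × ℝ → ℂ}

theorem DP_mono {m n : ℕ} (h : m ≤ n) : DP u v m ≤ DP u v n := by
  apply Subsemiring.closure_mono
  rintro f (⟨i, hi, rfl⟩ | ⟨i, hi, rfl⟩)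
  · exact Or.inl ⟨i, hi.trans h, rfl⟩
  · exact Or.inr ⟨i, hi.trans h, rfl⟩

theorem u_mem {i m : ℕ} (h : i ≤ m) : u i ∈ DP u v m :=
  Subsemiring.subset_closure (Or.inl ⟨i, h, rfl⟩)

theorem v_mem {i m : ℕ} (h : i + 2 ≤ m) : v i ∈ DP u v m :=
  Subsemiring.subset_closure (Or.inr ⟨i, h, rfl⟩)

theorem Chain.cont (hc : Chain L u v p) {m : ℕ} {f : ℝ × ℝ → ℂ} (hf : f ∈ DP u v m) :
    ContinuousOn f (univ ×ˢ Ioo 0 L) := by
  induction hf using Subsemiring.closure_induction with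
  | mem f hf =>
    rcases hf with ⟨i, -, rfl⟩ | ⟨i, -, rfl⟩
    · exact hc.cu i
    · exact hc.cv i
  | zero => exact continuousOn_const
  | one => exact continuousOn_const
  | add f g _ _ hf hg => exact hf.add hg
  | mul f g _ _ hf hg => exact hf.mul hg

theorem Chain.dx (hc : Chain L u v p) {m : ℕ} {f : ℝ × ℝ → ℂ} (hf : f ∈ DP u v m) :
    ∃ g ∈ DP u v (m + 1), ∀ x, ∀ t ∈ Ioo 0 L, HasDerivAt (fun y => f (y, t)) (g (x, t)) x := by
  induction hf using Subsemiring.closure_induction with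
  | mem f hf =>
    rcases hf with ⟨i, hi, rfl⟩ | ⟨i, hi, rfl⟩
    · exact ⟨u (i + 1), u_mem (by omega), hc.xu i⟩
    · exact ⟨v (i + 1), v_mem (by omega), hc.xv i⟩
  | zero => exact ⟨0, zero_mem _, fun x t _ => hasDerivAt_const x (0 : ℂ)⟩
  | one => exact ⟨0, zero_mem _, fun x t _ => hasDerivAt_const x (1 : ℂ)⟩
  | add f g _ _ hf hg =>
    obtain ⟨f', hf', h1⟩ := hf
    obtain ⟨g', hg', h2⟩ := hg
    exact ⟨f' + g', add_mem hf' hg', fun x t ht => (h1 x t ht).add (h2 x t ht)⟩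
  | mul f g hf0 hg0 hf hg =>
    obtain ⟨f', hf', h1⟩ := hf
    obtain ⟨g', hg', h2⟩ := hg
    exact ⟨f' * g + f * g', add_mem (mul_mem hf' (DP_mono (Nat.le_succ m) hg0))
      (mul_mem (DP_mono (Nat.le_succ m) hf0) hg'), fun x t ht => (h1 x t ht).mul (h2 x t ht)⟩

theorem Chain.p_mem (hc : Chain L u v p) (i : ℕ) :
    ∃ g ∈ DP u v i, ∀ x, ∀ t ∈ Ioo 0 L, p i (x, t) = g (x, t) := by
  induction i with
  | zero => exact ⟨u 0 * u 0, mul_mem (u_mem le_rfl) (u_mem le_rfl), hc.p0⟩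
  | succ i ih =>
    obtain ⟨g, hg, h⟩ := ih
    obtain ⟨g', hg', h'⟩ := hc.dx hg
    refine ⟨g', hg', fun x t ht => ?_⟩
    have h1 := hc.xp i x t ht
    have h2 : (fun y => p i (y, t)) = fun y => g (y, t) := funext fun y => h y t ht
    rw [h2] at h1
    exact h1.unique (h' x t ht)

theorem Chain.dt (hc : Chain L u v p) {m : ℕ} {f : ℝ × ℝ → ℂ} (hf : f ∈ DP u v m) :
    ∃ g ∈ DP u v (m + 2), ∀ x, ∀ t ∈ Ioo 0 L, HasDerivAt (fun s => f (x, s)) (g (x, t)) t := by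
  induction hf using Subsemiring.closure_induction with
  | mem f hf =>
    rcases hf with ⟨i, hi, rfl⟩ | ⟨i, hi, rfl⟩
    · exact ⟨v i, v_mem (by omega), hc.tu i⟩
    · obtain ⟨g, hg, h⟩ := hc.p_mem (i + 2)
      refine ⟨u (i + 4) + u (i + 2) + g, add_mem (add_mem (u_mem (by omega)) (u_mem (by omega)))
        (DP_mono (by omega) hg), fun x t ht => ?_⟩
      refine (hc.tv i x t ht).congr_deriv ?_
      rw [h x t ht]
      rfl
  | zero => exact ⟨0, zero_mem _, fun x t _ => hasDerivAt_const t (0 : ℂ)⟩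
  | one => exact ⟨0, zero_mem _, fun x t _ => hasDerivAt_const t (1 : ℂ)⟩
  | add f g _ _ hf hg =>
    obtain ⟨f', hf', h1⟩ := hf
    obtain ⟨g', hg', h2⟩ := hg
    exact ⟨f' + g', add_mem hf' hg', fun x t ht => (h1 x t ht).add (h2 x t ht)⟩
  | mul f g hf0 hg0 hf hg =>
    obtain ⟨f', hf', h1⟩ := hf
    obtain ⟨g', hg', h2⟩ := hg
    exact ⟨f' * g + f * g', add_mem (mul_mem hf' (DP_mono (by omega) hg0))
      (mul_mem (DP_mono (by omega) hf0) hg'), fun x t ht => (h1 x t ht).mul (h2 x t ht)⟩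

theorem Chain.contDiffOn_nat (hc : Chain L u v p) (n : ℕ) :
    ∀ {m : ℕ} {f : ℝ × ℝ → ℂ}, f ∈ DP u v m → ContDiffOn ℝ n f (univ ×ˢ Ioo 0 L) := by
  have hO : IsOpen ((univ : Set ℝ) ×ˢ Ioo (0 : ℝ) L) := isOpen_univ.prod isOpen_Ioo
  induction n with
  | zero => intro m f hf; exact contDiffOn_zero.2 (hc.cont hf)
  | succ n ih =>
    intro m f hf
    obtain ⟨g₁, hg₁, h₁⟩ := hc.dx hf
    obtain ⟨g₂, hg₂, h₂⟩ := hc.dt hf
    let A : ℂ →L[ℝ] ℝ →L[ℝ] ℂ := ContinuousLinearMap.smulRightL ℝ ℝ ℂ (1 : ℝ →L[ℝ] ℝ)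
    have hA : ∀ c : ℂ, A c = ContinuousLinearMap.toSpanSingleton ℝ c := by
      intro c; ext; simp [A]
    have hder : ∀ z ∈ (univ : Set ℝ) ×ˢ Ioo (0 : ℝ) L,
        HasFDerivAt f ((A (g₁ z)).coprod (A (g₂ z))) z := by
      intro z hz
      have := hasStrictFDerivAt_uncurry_coprod (𝕜 := ℝ) (u := z) (f := fun x t => f (x, t))
        (f₁ := fun x t => A (g₁ (x, t))) (f₂ := fun x t => A (g₂ (x, t))) ?_ ?_ ?_ ?_
      · exact this.hasFDerivAt
      · filter_upwards [hO.mem_nhds hz] with w hw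
        change HasFDerivAt _ (A (g₁ (w.1, w.2))) _
        rw [hA]
        exact (h₁ w.1 w.2 hw.2).hasFDerivAt
      · filter_upwards [hO.mem_nhds hz] with w hw
        change HasFDerivAt _ (A (g₂ (w.1, w.2))) _
        rw [hA]
        exact (h₂ w.1 w.2 hw.2).hasFDerivAt
      · exact A.continuous.continuousAt.comp ((hc.cont hg₁).continuousAt (hO.mem_nhds hz))
      · exact A.continuous.continuousAt.comp ((hc.cont hg₂).continuousAt (hO.mem_nhds hz))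
    push_cast
    rw [contDiffOn_succ_iff_fderiv_of_isOpen hO]
    refine ⟨fun z hz => (hder z hz).differentiableAt.differentiableWithinAt, by simp, ?_⟩
    have e : ∀ z : ℝ × ℝ, (A (g₁ z)).coprod (A (g₂ z)) =
        (A (g₁ z)).comp (ContinuousLinearMap.fst ℝ ℝ ℝ) +
          (A (g₂ z)).comp (ContinuousLinearMap.snd ℝ ℝ ℝ) := fun z =>
      (ContinuousLinearMap.comp_fst_add_comp_snd _ _).symm
    refine ContDiffOn.congr (f := fun z => (A (g₁ z)).comp (ContinuousLinearMap.fst ℝ ℝ ℝ) +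
      (A (g₂ z)).comp (ContinuousLinearMap.snd ℝ ℝ ℝ)) ?_ fun z hz => by rw [(hder z hz).fderiv, e]
    exact ((A.contDiff.comp_contDiffOn (ih hg₁)).clm_comp contDiffOn_const).add
      ((A.contDiff.comp_contDiffOn (ih hg₂)).clm_comp contDiffOn_const)

theorem Chain.contDiffOn (hc : Chain L u v p) {m : ℕ} {f : ℝ × ℝ → ℂ} (hf : f ∈ DP u v m) :
    ContDiffOn ℝ ∞ f (univ ×ˢ Ioo 0 L) :=
  contDiffOn_infty.2 fun n => hc.contDiffOn_nat n hf

theorem DP_bounded {q : ℕ} {S : Set (ℝ × ℝ)} (hu : ∀ i, i ≤ q → ∃ C, ∀ z ∈ S, ‖u i z‖ ≤ C)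
    (hv : ∀ i, i + 2 ≤ q → ∃ C, ∀ z ∈ S, ‖v i z‖ ≤ C) {f : ℝ × ℝ → ℂ} (hf : f ∈ DP u v q) :
    ∃ C, ∀ z ∈ S, ‖f z‖ ≤ C := by
  induction hf using Subsemiring.closure_induction with
  | mem f hf =>
    rcases hf with ⟨i, hi, rfl⟩ | ⟨i, hi, rfl⟩
    · exact hu i hi
    · exact hv i hi
  | zero => exact ⟨0, fun z _ => by simp⟩
  | one => exact ⟨1, fun z _ => by simp⟩
  | add f g _ _ hf hg =>
    obtain ⟨C, hC⟩ := hf
    obtain ⟨D, hD⟩ := hg
    exact ⟨C + D, fun z hz => (norm_add_le _ _).trans (add_le_add (hC z hz) (hD z hz))⟩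
  | mul f g _ _ hf hg =>
    obtain ⟨C, hC⟩ := hf
    obtain ⟨D, hD⟩ := hg
    refine ⟨C * D, fun z hz => ?_⟩
    rw [Pi.mul_apply, norm_mul]
    exact mul_le_mul (hC z hz) (hD z hz) (norm_nonneg _) ((norm_nonneg _).trans (hC z hz))

theorem hasDerivAt_re {f : ℝ → ℂ} {c : ℂ} {x : ℝ} (h : HasDerivAt f c x) :
    HasDerivAt (fun y => (f y).re) c.re x :=
  Complex.reCLM.hasFDerivAt.comp_hasDerivAt x h

/-- Iterated derivatives of the real part along a chain of derivatives on an open set. -/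
theorem iteratedDeriv_re_of_chain {s : Set ℝ} (hs : IsOpen s) {g : ℕ → ℝ → ℂ} (n : ℕ)
    (h : ∀ i, i < n → ∀ x ∈ s, HasDerivAt (g i) (g (i + 1) x) x) :
    ∀ x ∈ s, iteratedDeriv n (fun y => (g 0 y).re) x = (g n x).re := by
  induction n with
  | zero => intro x _; simp
  | succ n ih =>
    intro x hx
    have h1 : iteratedDeriv n (fun y => (g 0 y).re) =ᶠ[𝓝 x] fun y => (g n y).re := by
      filter_upwards [hs.mem_nhds hx] with y hy
      exact ih (fun i hi => h i (by omega)) y hy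
    rw [iteratedDeriv_succ, h1.deriv_eq]
    exact (hasDerivAt_re (h n (by omega) x hx)).deriv

theorem Chain.iter_t (hc : Chain L u v p) {m : ℕ} {f : ℝ × ℝ → ℂ} (hf : f ∈ DP u v m) (j : ℕ) :
    ∃ g ∈ DP u v (m + 2 * j), ∀ x, ∀ t ∈ Ioo 0 L,
      iteratedDeriv j (fun s => (f (x, s)).re) t = (g (x, t)).re := by
  induction j with
  | zero => exact ⟨f, hf, fun x t _ => by simp⟩
  | succ j ih =>
    obtain ⟨g, hg, h⟩ := ih
    obtain ⟨g', hg', h'⟩ := hc.dt hg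
    refine ⟨g', hg', fun x t ht => ?_⟩
    have h1 : iteratedDeriv j (fun s => (f (x, s)).re) =ᶠ[𝓝 t] fun s => (g (x, s)).re := by
      filter_upwards [isOpen_Ioo.mem_nhds ht] with s hs
      exact h x s hs
    rw [iteratedDeriv_succ, h1.deriv_eq]
    exact (hasDerivAt_re (h' x t ht)).deriv

theorem Chain.iter_x (hc : Chain L u v p) {m : ℕ} {f : ℝ × ℝ → ℂ} (hf : f ∈ DP u v m) (i : ℕ) :
    ∃ g ∈ DP u v (m + i), ∀ x, ∀ t ∈ Ioo 0 L,
      iteratedDeriv i (fun y => (f (y, t)).re) x = (g (x, t)).re := by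
  induction i with
  | zero => exact ⟨f, hf, fun x t _ => by simp⟩
  | succ i ih =>
    obtain ⟨g, hg, h⟩ := ih
    obtain ⟨g', hg', h'⟩ := hc.dx hg
    refine ⟨g', hg', fun x t ht => ?_⟩
    have h1 : iteratedDeriv i (fun y => (f (y, t)).re) = fun y => (g (y, t)).re :=
      funext fun y => h y t ht
    rw [iteratedDeriv_succ, h1]
    exact (hasDerivAt_re (h' x t ht)).deriv

theorem Chain.mixed_bounded (hc : Chain L u v p) {q : ℕ}
    (hu : ∀ i, i ≤ q → ∃ C, ∀ z ∈ (univ : Set ℝ) ×ˢ Ioo (0 : ℝ) L, ‖u i z‖ ≤ C)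
    (hv : ∀ i, i + 2 ≤ q → ∃ C, ∀ z ∈ (univ : Set ℝ) ×ˢ Ioo (0 : ℝ) L, ‖v i z‖ ≤ C)
    {i j : ℕ} (hij : i + 2 * j ≤ q) : ∃ C, ∀ x, ∀ t ∈ Ioo 0 L,
      |iteratedDeriv i (fun y => iteratedDeriv j (fun s => (u 0 (y, s)).re) t) x| ≤ C := by
  obtain ⟨g, hg, h⟩ := hc.iter_t (u_mem (v := v) (le_refl 0)) j
  obtain ⟨g', hg', h'⟩ := hc.iter_x hg i
  obtain ⟨C, hC⟩ := DP_bounded hu hv (DP_mono (by omega) hg')
  refine ⟨C, fun x t ht => ?_⟩
  have h1 : (fun y => iteratedDeriv j (fun s => (u 0 (y, s)).re) t) = fun y => (g (y, t)).re :=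
    funext fun y => h y t ht
  rw [h1, h' x t ht]
  exact (Complex.abs_re_le_norm _).trans (hC _ ⟨mem_univ _, ht⟩)

theorem Chain.iter_u (hc : Chain L u v p) (i : ℕ) (x : ℝ) {t : ℝ} (ht : t ∈ Ioo 0 L) :
    iteratedDeriv i (fun y => (u 0 (y, t)).re) x = (u i (x, t)).re :=
  iteratedDeriv_re_of_chain isOpen_univ (g := fun i y => u i (y, t)) i
    (fun j _ y _ => hc.xu j y t ht) x (mem_univ _)

theorem Chain.iter_p (hc : Chain L u v p) (i : ℕ) (x : ℝ) {t : ℝ} (ht : t ∈ Ioo 0 L) :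
    iteratedDeriv i (fun y => (p 0 (y, t)).re) x = (p i (x, t)).re :=
  iteratedDeriv_re_of_chain isOpen_univ (g := fun i y => p i (y, t)) i
    (fun j _ y _ => hc.xp j y t ht) x (mem_univ _)

theorem Chain.iter_tt (hc : Chain L u v p) (x : ℝ) {t : ℝ} (ht : t ∈ Ioo 0 L) :
    iteratedDeriv 2 (fun s => (u 0 (x, s)).re) t =
      (u 4 (x, t)).re + (u 2 (x, t)).re + (p 2 (x, t)).re := by
  have := iteratedDeriv_re_of_chain (isOpen_Ioo (a := 0) (b := L))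
    (g := fun i s => match i with
      | 0 => u 0 (x, s)
      | 1 => v 0 (x, s)
      | _ => u 4 (x, s) + u 2 (x, s) + p 2 (x, s)) 2 ?_ t ht
  · simpa using this
  · intro i hi s hs
    interval_cases i
    · exact hc.tu 0 x s hs
    · exact hc.tv 0 x s hs

end Pool.Agent.P.MP_0afb51_an
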