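import Mathlib

/-!
The entire functions `cosh (sqrt x)` and `sinh (sqrt x) / sqrt x`, and the fundamental solutions
of `y'' = mu y` with `mu = z^4 - z^2`.
-/

namespace Pool.Agent.P.MP_0afb51_an

open Complex Set Filter Topology
open scoped Nat ComplexConjugate

noncomputable def Cs (x : ℂ) : ℂ := ∑' n : ℕ, x ^ n / ((2 * n)! : ℂ)

noncomputable def Ss (x : ℂ) : ℂ := ∑' n : ℕ, x ^ n / ((2 * n + 1)! : ℂ)

theorem differentiable_series (a : ℕ → ℕ) (ha : ∀ n, n ≤ a n) :
    Differentiable ℂ fun x : ℂ => ∑' n : ℕ, x ^ n / ((a n)! : ℂ) := by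
  intro x₀
  have hR : x₀ ∈ Metric.ball (0 : ℂ) (‖x₀‖ + 1) := by simp
  have h := differentiableOn_tsum_of_summable_norm (u := fun n : ℕ => (‖x₀‖ + 1) ^ n / (n ! : ℝ))
    (F := fun (n : ℕ) (x : ℂ) => x ^ n / ((a n)! : ℂ)) (U := Metric.ball (0 : ℂ) (‖x₀‖ + 1))
    (Real.summable_pow_div_factorial _) (fun n => by fun_prop) Metric.isOpen_ball ?_
  · exact h.differentiableAt (Metric.isOpen_ball.mem_nhds hR)
  · intro n w hw
    rw [mem_ball_zero_iff] at hw
    rw [norm_div, norm_pow, Complex.norm_natCast]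
    have h1 : (n ! : ℝ) ≤ ((a n)! : ℝ) := by exact_mod_cast Nat.factorial_le (ha n)
    have h2 : (0 : ℝ) < (n ! : ℝ) := by exact_mod_cast Nat.factorial_pos n
    gcongr

theorem differentiable_Cs : Differentiable ℂ Cs :=
  differentiable_series (fun n => 2 * n) (fun n => by omega)

theorem differentiable_Ss : Differentiable ℂ Ss :=
  differentiable_series (fun n => 2 * n + 1) (fun n => by omega)

theorem Cs_sq (w : ℂ) : Cs (w ^ 2) = cosh w := by
  rw [Cs, ← (hasSum_cosh w).tsum_eq]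
  refine tsum_congr fun n => ?_
  rw [← pow_mul]

theorem mul_Ss_sq (w : ℂ) : w * Ss (w ^ 2) = sinh w := by
  rw [Ss, ← (hasSum_sinh w).tsum_eq, ← tsum_mul_left]
  refine tsum_congr fun n => ?_
  rw [← pow_mul, pow_succ]
  ring

theorem Ss_zero : Ss 0 = 1 := by
  rw [Ss, tsum_eq_single 0]
  · simp
  · intro n hn
    simp [hn]

theorem conj_Cs (x : ℂ) : conj (Cs x) = Cs (conj x) := by
  rw [Cs, Cs, conj_tsum]
  refine tsum_congr fun n => ?_
  simp

theorem conj_Ss (x : ℂ) : conj (Ss x) = Ss (conj x) := by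
  rw [Ss, Ss, conj_tsum]
  refine tsum_congr fun n => ?_
  simp

/-- The symbol of the linear part. -/
noncomputable def mu (z : ℂ) : ℂ := z ^ 4 - z ^ 2

/-- The principal square root of the symbol. -/
noncomputable def lam (z : ℂ) : ℂ := mu z ^ (2⁻¹ : ℂ)

theorem lam_sq (z : ℂ) : lam z ^ 2 = mu z := by
  simp [lam]

theorem lam_re (z : ℂ) : (lam z).re = √((‖mu z‖ + (mu z).re) / 2) := cpow_inv_two_re _

theorem lam_re_nonneg (z : ℂ) : 0 ≤ (lam z).re := by
  rw [lam_re]; exact Real.sqrt_nonneg _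

noncomputable def cc (τ : ℝ) (z : ℂ) : ℂ := Cs (mu z * (τ : ℂ) ^ 2)

noncomputable def ss (τ : ℝ) (z : ℂ) : ℂ := τ * Ss (mu z * (τ : ℂ) ^ 2)

theorem cc_eq (τ : ℝ) (z : ℂ) : cc τ z = cosh (lam z * τ) := by
  rw [cc, ← Cs_sq, mul_pow, lam_sq]

theorem lam_mul_ss (τ : ℝ) (z : ℂ) : lam z * ss τ z = sinh (lam z * τ) := by
  rw [ss, ← mul_Ss_sq, mul_pow, lam_sq]
  ring

theorem continuous_mu : Continuous mu := by unfold mu; fun_prop

theorem differentiable_mu : Differentiable ℂ mu := by unfold mu; fun_prop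

theorem continuous_cc : Continuous fun p : ℝ × ℂ => cc p.1 p.2 := by
  unfold cc
  refine differentiable_Cs.continuous.comp ?_
  have := continuous_mu
  fun_prop

theorem continuous_ss : Continuous fun p : ℝ × ℂ => ss p.1 p.2 := by
  unfold ss
  refine Continuous.mul (by fun_prop) (differentiable_Ss.continuous.comp ?_)
  have := continuous_mu
  fun_prop

@[fun_prop]
theorem continuous_cc_comp {X : Type*} [TopologicalSpace X] {f : X → ℝ} {g : X → ℂ}
    (hf : Continuous f) (hg : Continuous g) : Continuous fun x => cc (f x) (g x) :=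
  continuous_cc.comp (f := fun x => (f x, g x)) (hf.prodMk hg)

@[fun_prop]
theorem continuous_ss_comp {X : Type*} [TopologicalSpace X] {f : X → ℝ} {g : X → ℂ}
    (hf : Continuous f) (hg : Continuous g) : Continuous fun x => ss (f x) (g x) :=
  continuous_ss.comp (f := fun x => (f x, g x)) (hf.prodMk hg)

@[fun_prop]
theorem differentiable_cc (τ : ℝ) : Differentiable ℂ fun z => cc τ z := by
  unfold cc
  exact differentiable_Cs.comp (differentiable_mu.mul_const _)

@[fun_prop]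
theorem differentiable_ss (τ : ℝ) : Differentiable ℂ fun z => ss τ z := by
  unfold ss
  exact (differentiable_Ss.comp (differentiable_mu.mul_const _)).const_mul _

theorem cc_zero (z : ℂ) : cc 0 z = 1 := by simp [cc_eq]

theorem ss_zero (z : ℂ) : ss 0 z = 0 := by simp [ss]

theorem hasDerivAt_lam_mul (z : ℂ) (τ : ℝ) :
    HasDerivAt (fun σ : ℝ => lam z * (σ : ℂ)) (lam z) τ := by
  simpa using (Complex.ofRealCLM.hasDerivAt (x := τ)).const_mul (lam z)

theorem hasDerivAt_cc (z : ℂ) (τ : ℝ) : HasDerivAt (fun σ => cc σ z) (mu z * ss τ z) τ := by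
  have h : HasDerivAt (fun σ : ℝ => cosh (lam z * (σ : ℂ))) (sinh (lam z * τ) * lam z) τ :=
    (Complex.hasDerivAt_cosh _).comp τ (hasDerivAt_lam_mul z τ)
  simp only [cc_eq]
  convert h using 1
  rw [← lam_mul_ss, ← lam_sq]
  ring

theorem hasDerivAt_ss (z : ℂ) (τ : ℝ) : HasDerivAt (fun σ => ss σ z) (cc τ z) τ := by
  by_cases h0 : lam z = 0
  · have hmu : mu z = 0 := by rw [← lam_sq, h0]; simp
    have h1 : (fun σ : ℝ => ss σ z) = fun σ : ℝ => (σ : ℂ) := by
      funext σ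
      simp [ss, hmu, Ss_zero]
    rw [h1, cc_eq, h0]
    simpa using (hasDerivAt_id τ).ofReal_comp
  · have h1 : (fun σ : ℝ => ss σ z) = fun σ : ℝ => (lam z)⁻¹ * sinh (lam z * (σ : ℂ)) := by
      funext σ
      rw [← lam_mul_ss]
      field_simp
    have h : HasDerivAt (fun σ : ℝ => sinh (lam z * (σ : ℂ))) (cosh (lam z * τ) * lam z) τ :=
      (Complex.hasDerivAt_sinh _).comp τ (hasDerivAt_lam_mul z τ)
    rw [h1, cc_eq]
    refine (h.const_mul (lam z)⁻¹).congr_deriv ?_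
    rw [mul_comm (cosh _), ← mul_assoc, inv_mul_cancel₀ h0, one_mul]

theorem mu_neg (z : ℂ) : mu (-z) = mu z := by unfold mu; ring

theorem conj_mu (z : ℂ) : conj (mu z) = mu (conj z) := by simp [mu]

theorem cc_neg (τ : ℝ) (z : ℂ) : cc τ (-z) = cc τ z := by simp [cc, mu_neg]

theorem ss_neg (τ : ℝ) (z : ℂ) : ss τ (-z) = ss τ z := by simp [ss, mu_neg]

theorem conj_cc (τ k : ℝ) : conj (cc τ k) = cc τ k := by
  simp [cc, conj_Cs, conj_mu]

theorem conj_ss (τ k : ℝ) : conj (ss τ k) = ss τ k := by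
  simp [ss, conj_Ss, conj_mu]

theorem cc_im (τ k : ℝ) : (cc τ k).im = 0 := conj_eq_iff_im.1 (conj_cc τ k)

/-- Addition-type identity: the Wronskian of the two boundary solutions. -/
theorem cc_add (σ τ : ℝ) (z : ℂ) :
    cc (σ + τ) z = cc σ z * cc τ z + mu z * ss σ z * ss τ z := by
  rw [cc_eq, cc_eq, cc_eq, ← lam_sq]
  push_cast
  rw [mul_add, cosh_add, ← lam_mul_ss, ← lam_mul_ss]
  ring

theorem cc_sq_sub (τ : ℝ) (z : ℂ) : cc τ z ^ 2 - mu z * ss τ z ^ 2 = 1 := by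
  rw [cc_eq, ← lam_sq, ← mul_pow, lam_mul_ss]
  exact cosh_sq_sub_sinh_sq _

/-- For real frequencies of modulus at least one, `cc` is a real number at least one. -/
theorem one_le_cc_re (τ k : ℝ) (hk : 1 ≤ |k|) : 1 ≤ (cc τ k).re := by
  have hk2 : 1 ≤ k ^ 2 := by nlinarith [sq_abs k, abs_nonneg k]
  have hm : 0 ≤ k ^ 4 - k ^ 2 := by nlinarith
  have h1 : mu k * (τ : ℂ) ^ 2 = ((√(k ^ 4 - k ^ 2) * τ : ℝ) : ℂ) ^ 2 := by
    have : (√(k ^ 4 - k ^ 2) * τ) ^ 2 = (k ^ 4 - k ^ 2) * τ ^ 2 := by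
      rw [mul_pow, Real.sq_sqrt hm]
    rw [← Complex.ofReal_pow (√(k ^ 4 - k ^ 2) * τ), this, mu]
    push_cast
    ring
  rw [cc, h1, Cs_sq, ← Complex.ofReal_cosh, Complex.ofReal_re]
  exact Real.one_le_cosh _

end Pool.Agent.P.MP_0afb51_an
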