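import Pool.Agent.P.MP_0afb51_an.Holo

/-!
The time dependent Gevrey weight and the convolution estimate.
-/

namespace Pool.Agent.P.MP_0afb51_an

open Complex Set Filter Topology MeasureTheory
open scoped ComplexConjugate

/-- Distance to the complement of the time interval. -/
noncomputable def rho (L t : ℝ) : ℝ := max 0 (min t (L - t))

/-- The weight. -/
noncomputable def Om (σ : ℕ) (L x t : ℝ) : ℝ := Real.exp (-(rho L t * |x|)) / (1 + |x|) ^ σ

theorem rho_nonneg (L t : ℝ) : 0 ≤ rho L t := le_max_left _ _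

theorem rho_sub_le (L s t : ℝ) : rho L t - rho L s ≤ |t - s| := by
  have h1 := le_abs_self (t - s)
  have h2 := neg_abs_le (t - s)
  have h3 := abs_nonneg (t - s)
  unfold rho
  rcases le_total t (L - t) with h | h <;> rcases le_total s (L - s) with h' | h' <;>
    simp only [min_eq_left, min_eq_right, h, h'] <;>
    rw [sub_le_iff_le_add, max_le_iff] <;> constructor <;>
    first
      | linarith [le_max_left 0 s, le_max_left 0 (L - s)]
      | linarith [le_max_right 0 s, le_max_right 0 (L - s)]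

theorem rho_self (L : ℝ) : rho L L = 0 := by
  unfold rho
  rw [sub_self]
  exact max_eq_left (min_le_right _ _)

@[fun_prop]
theorem continuous_rho (L : ℝ) : Continuous (rho L) := by unfold rho; fun_prop

theorem Om_pos (σ : ℕ) (L x t : ℝ) : 0 < Om σ L x t := by unfold Om; positivity

@[fun_prop]
theorem continuous_Om_comp (σ : ℕ) (L : ℝ) {X : Type*} [TopologicalSpace X] {f g : X → ℝ}
    (hf : Continuous f) (hg : Continuous g) : Continuous fun x => Om σ L (f x) (g x) := by
  unfold Om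
  refine Continuous.div (by fun_prop) (by fun_prop) fun x => by positivity

theorem Om_neg (σ : ℕ) (L x t : ℝ) : Om σ L (-x) t = Om σ L x t := by simp [Om]

theorem Om_le (σ : ℕ) (L x t : ℝ) : Om σ L x t ≤ 1 / (1 + |x|) ^ σ := by
  unfold Om
  gcongr
  exact Real.exp_le_one_iff.2 (by nlinarith [rho_nonneg L t, abs_nonneg x])

theorem one_div_pow_le {σ : ℕ} (hσ : 2 ≤ σ) (x : ℝ) : 1 / (1 + |x|) ^ σ ≤ (1 + x ^ 2)⁻¹ := by
  rw [one_div]
  apply inv_anti₀ (by positivity)
  calc 1 + x ^ 2 ≤ (1 + |x|) ^ 2 := by nlinarith [abs_nonneg x, sq_abs x]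
    _ ≤ _ := pow_le_pow_right₀ (by linarith [abs_nonneg x]) hσ

theorem Om_le_inv {σ : ℕ} (hσ : 2 ≤ σ) (L x t : ℝ) : Om σ L x t ≤ (1 + x ^ 2)⁻¹ :=
  (Om_le σ L x t).trans (one_div_pow_le hσ x)

theorem Om_le_one (σ : ℕ) (L x t : ℝ) : Om σ L x t ≤ 1 := by
  refine (Om_le σ L x t).trans ?_
  rw [div_le_one (by positivity)]
  exact one_le_pow₀ (by linarith [abs_nonneg x])

theorem Om_mul_le {σ : ℕ} (hσ : 2 ≤ σ) (L x l t : ℝ) :
    Om σ L (x - l) t * Om σ L l t ≤
      2 ^ σ * Om σ L x t * ((1 + l ^ 2)⁻¹ + (1 + (x - l) ^ 2)⁻¹) := by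
  have htri : |x| ≤ |x - l| + |l| := by
    have := abs_add_le (x - l) l
    simpa using this
  have hexp : Real.exp (-(rho L t * |x - l|)) * Real.exp (-(rho L t * |l|)) ≤
      Real.exp (-(rho L t * |x|)) := by
    rw [← Real.exp_add]
    apply Real.exp_le_exp.2
    nlinarith [rho_nonneg L t]
  have hpoly : 1 / (1 + |x - l|) ^ σ * (1 / (1 + |l|) ^ σ) ≤
      2 ^ σ / (1 + |x|) ^ σ * ((1 + l ^ 2)⁻¹ + (1 + (x - l) ^ 2)⁻¹) := by
    have key : ∀ a : ℝ, 0 ≤ a → 1 + |x| ≤ 2 * (1 + a) →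
        1 / (1 + a) ^ σ ≤ 2 ^ σ / (1 + |x|) ^ σ := by
      intro a ha h
      rw [div_le_div_iff₀ (by positivity) (by positivity), one_mul, ← mul_pow]
      gcongr
    have p1 : 0 < (1 + l ^ 2)⁻¹ := by positivity
    have p2 : 0 < (1 + (x - l) ^ 2)⁻¹ := by positivity
    rcases le_total |l| |x - l| with h | h
    · have h1 := key _ (abs_nonneg (x - l)) (by linarith [abs_nonneg l])
      have h2 := one_div_pow_le hσ l
      calc 1 / (1 + |x - l|) ^ σ * (1 / (1 + |l|) ^ σ)
          ≤ 2 ^ σ / (1 + |x|) ^ σ * (1 + l ^ 2)⁻¹ := by gcongr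
        _ ≤ _ := by gcongr; linarith
    · have h1 := key _ (abs_nonneg l) (by linarith [abs_nonneg l])
      have h2 := one_div_pow_le hσ (x - l)
      calc 1 / (1 + |x - l|) ^ σ * (1 / (1 + |l|) ^ σ)
          ≤ (1 + (x - l) ^ 2)⁻¹ * (2 ^ σ / (1 + |x|) ^ σ) := by gcongr
        _ = 2 ^ σ / (1 + |x|) ^ σ * (1 + (x - l) ^ 2)⁻¹ := mul_comm _ _
        _ ≤ _ := by gcongr; linarith
  calc Om σ L (x - l) t * Om σ L l t
      = (Real.exp (-(rho L t * |x - l|)) * Real.exp (-(rho L t * |l|))) *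
        (1 / (1 + |x - l|) ^ σ * (1 / (1 + |l|) ^ σ)) := by unfold Om; ring
    _ ≤ Real.exp (-(rho L t * |x|)) *
        (2 ^ σ / (1 + |x|) ^ σ * ((1 + l ^ 2)⁻¹ + (1 + (x - l) ^ 2)⁻¹)) := by gcongr
    _ = _ := by unfold Om; ring

/-- The key pointwise inequality between the decay of the Green kernel and the weight. -/
theorem exp_mul_Om_le (σ : ℕ) {L x r s t : ℝ} (hr : 2 * |x| - 3 ≤ r) (hs : s ∈ Icc 0 L)
    (ht : t ∈ Icc 0 L) :
    Real.exp (-(r * |t - s|)) * Om σ L x s ≤
      Real.exp (3 * L) * Om σ L x t * Real.exp (-(|t - s| * |x|)) := by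
  have h1 := rho_sub_le L s t
  have h2 : |t - s| ≤ L := by
    rw [abs_le]; constructor <;> linarith [hs.1, hs.2, ht.1, ht.2]
  have h3 : Real.exp (-(r * |t - s|)) * Real.exp (-(rho L s * |x|)) ≤
      Real.exp (3 * L) * Real.exp (-(rho L t * |x|)) * Real.exp (-(|t - s| * |x|)) := by
    rw [← Real.exp_add, ← Real.exp_add, ← Real.exp_add]
    apply Real.exp_le_exp.2
    nlinarith [abs_nonneg x, abs_nonneg (t - s), mul_le_mul_of_nonneg_right h1 (abs_nonneg x),
      mul_le_mul_of_nonneg_right hr (abs_nonneg (t - s))]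
  calc Real.exp (-(r * |t - s|)) * Om σ L x s
      = Real.exp (-(r * |t - s|)) * Real.exp (-(rho L s * |x|)) / (1 + |x|) ^ σ := by
        unfold Om; ring
    _ ≤ Real.exp (3 * L) * Real.exp (-(rho L t * |x|)) * Real.exp (-(|t - s| * |x|)) /
        (1 + |x|) ^ σ := by gcongr
    _ = _ := by unfold Om; ring

theorem integral_exp_left {L a t : ℝ} (ha : 0 ≤ a) (ht : t ∈ Icc 0 L) :
    (1 + a) * ∫ s in (0 : ℝ)..t, Real.exp (-(|t - s| * a)) ≤ L + 1 := by
  have h1 : ∫ s in (0 : ℝ)..t, Real.exp (-(|t - s| * a)) ≤ ∫ _s in (0 : ℝ)..t, (1 : ℝ) := by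
    refine intervalIntegral.integral_mono_on ht.1 (Continuous.intervalIntegrable (by fun_prop) _ _)
      (by simp) fun s _ => Real.exp_le_one_iff.2 ?_
    nlinarith [abs_nonneg (t - s)]
  have h2 : ∫ s in (0 : ℝ)..t, a * Real.exp (-(|t - s| * a)) =
      Real.exp (-((t - t) * a)) - Real.exp (-((t - 0) * a)) := by
    rw [intervalIntegral.integral_congr (g := fun s => a * Real.exp (-((t - s) * a)))]
    · refine intervalIntegral.integral_eq_sub_of_hasDerivAt
        (f := fun s => Real.exp (-((t - s) * a))) (fun s _ => ?_)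
        (Continuous.intervalIntegrable (by fun_prop) _ _)
      have : HasDerivAt (fun s : ℝ => -((t - s) * a)) a s := by
        exact (((hasDerivAt_id s).const_sub t).mul_const a).fun_neg.congr_deriv (by ring)
      exact this.exp.congr_deriv (mul_comm _ _)
    · intro s hs
      rw [uIcc_of_le ht.1] at hs
      simp only [abs_of_nonneg (sub_nonneg.2 hs.2)]
  rw [intervalIntegral.integral_const_mul] at h2
  simp only [intervalIntegral.integral_const, sub_zero, smul_eq_mul, mul_one, sub_self, zero_mul,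
    neg_zero, Real.exp_zero] at h1 h2
  have h3 := Real.exp_pos (-(t * a))
  nlinarith [ht.2]

theorem integral_exp_right {L a t : ℝ} (ha : 0 ≤ a) (ht : t ∈ Icc 0 L) :
    (1 + a) * ∫ s in t..L, Real.exp (-(|t - s| * a)) ≤ L + 1 := by
  have h := integral_exp_left (L := L) (t := L - t) ha ⟨by linarith [ht.2], by linarith [ht.1]⟩
  have h2 : ∫ s in t..L, Real.exp (-(|t - s| * a)) =
      ∫ s in (0 : ℝ)..(L - t), Real.exp (-(|L - t - s| * a)) := by
    have := intervalIntegral.integral_comp_sub_left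
      (fun s => Real.exp (-(|L - t - s| * a))) (a := t) (b := L) L
    rw [sub_self] at this
    rw [← this]
    refine intervalIntegral.integral_congr fun s _ => ?_
    rw [show L - t - (L - s) = -(t - s) by ring, abs_neg]
  rwa [h2]

/-- Continuous functions dominated by a multiple of the weight. -/
structure Bd (σ : ℕ) (L M : ℝ) (w : ℂ → ℝ → ℂ) : Prop where
  cont : Continuous fun p : ℂ × ℝ => w p.1 p.2
  bd : ∀ z t, ‖w z t‖ ≤ M * Om σ L z.re t

theorem Bd.nonneg {σ : ℕ} {L M : ℝ} {w : ℂ → ℝ → ℂ} (h : Bd σ L M w) : 0 ≤ M := by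
  have := (norm_nonneg _).trans (h.bd 0 0)
  exact nonneg_of_mul_nonneg_left this (Om_pos _ _ _ _)

theorem Bd.comp {σ : ℕ} {L M : ℝ} {w : ℂ → ℝ → ℂ} (h : Bd σ L M w) {X : Type*}
    [TopologicalSpace X] {f : X → ℂ} {g : X → ℝ} (hf : Continuous f) (hg : Continuous g) :
    Continuous fun x => w (f x) (g x) :=
  h.cont.comp (f := fun x => (f x, g x)) (hf.prodMk hg)

/-- Convolution along horizontal lines. -/
noncomputable def conv (v w : ℂ → ℝ → ℂ) (z : ℂ) (t : ℝ) : ℂ := ∫ l : ℝ, v (z - l) t * w l t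

theorem conv_integrand_le {σ : ℕ} (hσ : 2 ≤ σ) {L M N : ℝ} {v w : ℂ → ℝ → ℂ} (hv : Bd σ L M v)
    (hw : Bd σ L N w) (z : ℂ) (t l : ℝ) : ‖v (z - l) t * w l t‖ ≤ M * N * (1 + l ^ 2)⁻¹ := by
  have h1 := hv.bd (z - l) t
  have h2 := hw.bd l t
  have h3 := Om_le_one σ L (z - l).re t
  have h4 := Om_le_inv hσ L (l : ℂ).re t
  have hM := hv.nonneg
  have hN := hw.nonneg
  rw [norm_mul]
  calc ‖v (z - l) t‖ * ‖w l t‖ ≤ (M * 1) * (N * (1 + (l : ℂ).re ^ 2)⁻¹) := by
        gcongr
        · exact h1.trans (by gcongr)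
        · exact h2.trans (by gcongr)
    _ = _ := by simp only [ofReal_re]; ring

theorem conv_integrable {σ : ℕ} (hσ : 2 ≤ σ) {L M N : ℝ} {v w : ℂ → ℝ → ℂ} (hv : Bd σ L M v)
    (hw : Bd σ L N w) (z : ℂ) (t : ℝ) : Integrable fun l : ℝ => v (z - l) t * w l t := by
  refine (integrable_inv_one_add_sq.const_mul (M * N)).mono' ?_
    (Eventually.of_forall fun l => conv_integrand_le hσ hv hw z t l)
  exact ((hv.comp (by fun_prop) continuous_const).mul
    (hw.comp (by fun_prop) continuous_const)).aestronglyMeasurable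

/-- The constant of the convolution estimate. -/
noncomputable def Cc (σ : ℕ) : ℝ := 2 ^ σ * (2 * Real.pi)

theorem Cc_pos (σ : ℕ) : 0 < Cc σ := by unfold Cc; positivity

theorem Bd.conv {σ : ℕ} (hσ : 2 ≤ σ) {L M N : ℝ} {v w : ℂ → ℝ → ℂ} (hv : Bd σ L M v)
    (hw : Bd σ L N w) : Bd σ L (Cc σ * M * N) (conv v w) := by
  have hM := hv.nonneg
  have hN := hw.nonneg
  constructor
  · refine continuous_of_dominated (bound := fun l => M * N * (1 + l ^ 2)⁻¹)
      (fun p => (conv_integrable hσ hv hw p.1 p.2).aestronglyMeasurable)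
      (fun p => Eventually.of_forall fun l => conv_integrand_le hσ hv hw p.1 p.2 l)
      (integrable_inv_one_add_sq.const_mul (M * N)) (Eventually.of_forall fun l => ?_)
    exact (hv.comp (by fun_prop) continuous_snd).mul (hw.comp continuous_const continuous_snd)
  · intro z t
    have hi2 : Integrable fun l : ℝ => (1 + (z.re - l) ^ 2)⁻¹ :=
      integrable_inv_one_add_sq.comp_sub_left z.re
    have hi : Integrable fun l : ℝ =>
        M * N * (2 ^ σ * Om σ L z.re t * ((1 + l ^ 2)⁻¹ + (1 + (z.re - l) ^ 2)⁻¹)) :=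
      ((integrable_inv_one_add_sq.add hi2).const_mul _).const_mul _
    refine (norm_integral_le_of_norm_le hi (Eventually.of_forall fun l => ?_)).trans (le_of_eq ?_)
    · have h1 := hv.bd (z - l) t
      have h2 := hw.bd l t
      simp only [sub_re, ofReal_re] at h1 h2
      have h3 := Om_mul_le hσ L z.re l t
      rw [norm_mul]
      calc ‖v (z - l) t‖ * ‖w l t‖ ≤ (M * Om σ L (z.re - l) t) * (N * Om σ L l t) := by
            gcongr
            exact mul_nonneg hM (Om_pos _ _ _ _).le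
        _ = M * N * (Om σ L (z.re - l) t * Om σ L l t) := by ring
        _ ≤ _ := by gcongr
    · rw [integral_const_mul, integral_const_mul, integral_add integrable_inv_one_add_sq hi2,
        integral_sub_left_eq_self (fun l : ℝ => (1 + l ^ 2)⁻¹), integral_univ_inv_one_add_sq, Cc]
      ring

theorem Bd.sub {σ : ℕ} {L M N : ℝ} {v w : ℂ → ℝ → ℂ} (hv : Bd σ L M v) (hw : Bd σ L N w)
    {D : ℝ} (hD : ∀ z t, ‖v z t - w z t‖ ≤ D * Om σ L z.re t) :
    Bd σ L D fun z t => v z t - w z t :=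
  ⟨hv.cont.sub hw.cont, hD⟩

theorem conv_sub_le {σ : ℕ} (hσ : 2 ≤ σ) {L R D : ℝ} {v w : ℂ → ℝ → ℂ} (hv : Bd σ L R v)
    (hw : Bd σ L R w) (hD : ∀ z t, ‖v z t - w z t‖ ≤ D * Om σ L z.re t) (z : ℂ) (t : ℝ) :
    ‖conv v v z t - conv w w z t‖ ≤ 2 * Cc σ * R * D * Om σ L z.re t := by
  have hd := hv.sub hw hD
  have h1 := (hd.conv hσ hv).bd z t
  have h2 := (hw.conv hσ hd).bd z t
  have h3 : conv v v z t - conv w w z t =
      conv (fun z t => v z t - w z t) v z t + conv w (fun z t => v z t - w z t) z t := by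
    unfold conv
    rw [← integral_sub (conv_integrable hσ hv hv z t) (conv_integrable hσ hw hw z t),
      ← integral_add (conv_integrable hσ hd hv z t) (conv_integrable hσ hw hd z t)]
    congr 1
    funext l
    ring
  rw [h3]
  refine (norm_add_le _ _).trans ?_
  linarith

theorem conv_differentiableOn {σ : ℕ} (hσ : 2 ≤ σ) {L M η : ℝ} {w : ℂ → ℝ → ℂ} (hw : Bd σ L M w)
    (t : ℝ) (hd : DifferentiableOn ℂ (fun z => w z t) (strip η)) :
    DifferentiableOn ℂ (fun z => conv w w z t) (strip η) := by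
  refine differentiableOn_integral_of_bound (isOpen_strip η)
    (bound := fun l => M * M * (1 + l ^ 2)⁻¹)
    (fun z _ => (conv_integrable hσ hw hw z t).aestronglyMeasurable) (fun l => ?_)
    (Eventually.of_forall fun l z _ => conv_integrand_le hσ hw hw z t l)
    (integrable_inv_one_add_sq.const_mul (M * M))
  refine DifferentiableOn.mul_const ?_ _
  refine hd.comp (f := fun z : ℂ => z - l) (by fun_prop) fun z hz => ?_
  simpa [strip] using hz

theorem conv_sym {w : ℂ → ℝ → ℂ} {t : ℝ} (hs : ∀ k : ℝ, w (-k) t = conj (w k t)) (k : ℝ) :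
    conv w w (-k) t = conj (conv w w k t) := by
  unfold conv
  rw [← integral_conj, ← integral_neg_eq_self]
  congr 1
  funext l
  have h1 := hs (k - l)
  have h2 := hs l
  push_cast at h1 h2 ⊢
  rw [map_mul, ← h1, ← h2]
  congr 2
  ring

end Pool.Agent.P.MP_0afb51_an
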