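import Pool.Agent.P.MP_0afb51_an.Kernel
import Pool.Agent.P.MP_0afb51_an.Weight

/-!
The Green operator and the fixed point on the Fourier side.
-/

namespace Pool.Agent.P.MP_0afb51_an

open Complex Set Filter Topology MeasureTheory BoundedContinuousFunction
open scoped ComplexConjugate

noncomputable def I1 (H : ℂ → ℝ → ℂ) (z : ℂ) (t : ℝ) : ℂ := ∫ s in (0 : ℝ)..t, cc s z * H z s

noncomputable def I2 (L : ℝ) (H : ℂ → ℝ → ℂ) (z : ℂ) (t : ℝ) : ℂ :=
  ∫ s in t..L, y2 L s z * H z s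

/-- The Green operator applied to the source `-z^2 H`. -/
noncomputable def Duh (L : ℝ) (H : ℂ → ℝ → ℂ) (z : ℂ) (t : ℝ) : ℂ :=
  z ^ 2 / QQ L z * (y2 L t z * I1 H z t + cc t z * I2 L H z t)

/-- Its time derivative. -/
noncomputable def Duhd (L : ℝ) (H : ℂ → ℝ → ℂ) (z : ℂ) (t : ℝ) : ℂ :=
  z ^ 2 / QQ L z * (y2d L t z * I1 H z t + mu z * ss t z * I2 L H z t)

/-- The solution of the linear equation with datum `φ`. -/
noncomputable def lin (L : ℝ) (φ : ℂ → ℂ) (z : ℂ) (t : ℝ) : ℂ := φ z * (cc L z / QQ L z) * cc t z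

/-- Its time derivative. -/
noncomputable def lind (L : ℝ) (φ : ℂ → ℂ) (z : ℂ) (t : ℝ) : ℂ :=
  φ z * (cc L z / QQ L z) * (mu z * ss t z)

theorem continuous_I1 {H : ℂ → ℝ → ℂ} (hH : Continuous fun p : ℂ × ℝ => H p.1 p.2) :
    Continuous fun p : ℂ × ℝ => I1 H p.1 p.2 := by
  refine intervalIntegral.continuous_parametric_primitive_of_continuous
    (f := fun z s => cc s z * H z s) ?_
  exact Continuous.mul (continuous_cc_comp continuous_snd continuous_fst) hH

theorem continuous_I2 (L : ℝ) {H : ℂ → ℝ → ℂ} (hH : Continuous fun p : ℂ × ℝ => H p.1 p.2) :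
    Continuous fun p : ℂ × ℝ => I2 L H p.1 p.2 := by
  have h := intervalIntegral.continuous_parametric_primitive_of_continuous (μ := volume) (a₀ := L)
    (f := fun z s => y2 L s z * H z s)
    (Continuous.mul (continuous_y2_comp L continuous_snd continuous_fst) hH)
  refine h.neg.congr fun p => ?_
  rw [I2, intervalIntegral.integral_symm L]
  rfl

theorem green_bound {σ : ℕ} {L η K M : ℝ} (hK : KB L η K) {H : ℂ → ℝ → ℂ} (hH : Bd σ L M H)
    {z : ℂ} (hz : |z.im| ≤ η) {t : ℝ} (ht : t ∈ Icc 0 L) {A B : ℂ} {α β : ℝ}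
    (hα : 0 ≤ α) (hβ : 0 ≤ β)
    (hA : ‖z ^ 2 / QQ L z * A‖ ≤ α * Real.exp (-((lam z).re * t)))
    (hB : ‖B‖ ≤ β * Real.exp ((lam z).re * t)) :
    (1 + |z.re|) * ‖z ^ 2 / QQ L z * (A * I1 H z t + B * I2 L H z t)‖ ≤
      (α + β * K) * Real.exp (3 * L) * (L + 1) * M * Om σ L z.re t := by
  have hr := lam_re_ge (hz.trans hK.eta_le)
  have hM := hH.nonneg
  have hKp := hK.K_pos
  have hOm := Om_pos σ L z.re t
  have hci : ∀ a b : ℝ, IntervalIntegrable (fun s => Real.exp (-(|t - s| * |z.re|))) volume a b :=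
    fun a b => Continuous.intervalIntegrable (by fun_prop) _ _
  have e : z ^ 2 / QQ L z * (A * I1 H z t + B * I2 L H z t) =
      (∫ s in (0 : ℝ)..t, (z ^ 2 / QQ L z * A) * (cc s z * H z s)) +
      ∫ s in t..L, (z ^ 2 / QQ L z * B) * (y2 L s z * H z s) := by
    rw [intervalIntegral.integral_const_mul, intervalIntegral.integral_const_mul, I1, I2]
    ring
  have h1 : ‖∫ s in (0 : ℝ)..t, (z ^ 2 / QQ L z * A) * (cc s z * H z s)‖ ≤
      ∫ s in (0 : ℝ)..t, (α * M * Real.exp (3 * L) * Om σ L z.re t) *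
        Real.exp (-(|t - s| * |z.re|)) := by
    refine intervalIntegral.norm_integral_le_of_norm_le ht.1
      (Eventually.of_forall fun s hs => ?_) ((hci _ _).const_mul _)
    have hs' : s ∈ Icc 0 L := ⟨hs.1.le, hs.2.trans ht.2⟩
    have k1 := norm_cc_le z hs'.1
    have k2 := hH.bd z s
    have k3 := exp_mul_Om_le σ hr hs' ht
    have k4 : Real.exp (-((lam z).re * t)) * Real.exp ((lam z).re * s) =
        Real.exp (-((lam z).re * |t - s|)) := by
      rw [← Real.exp_add, abs_of_nonneg (sub_nonneg.2 hs.2)]; congr 1; ring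
    rw [norm_mul, norm_mul (cc s z)]
    calc ‖z ^ 2 / QQ L z * A‖ * (‖cc s z‖ * ‖H z s‖)
        ≤ (α * Real.exp (-((lam z).re * t))) *
          (Real.exp ((lam z).re * s) * (M * Om σ L z.re s)) := by gcongr
      _ = α * M * (Real.exp (-((lam z).re * |t - s|)) * Om σ L z.re s) := by rw [← k4]; ring
      _ ≤ α * M * (Real.exp (3 * L) * Om σ L z.re t * Real.exp (-(|t - s| * |z.re|))) := by
          gcongr
      _ = _ := by ring
  have h2 : ‖∫ s in t..L, (z ^ 2 / QQ L z * B) * (y2 L s z * H z s)‖ ≤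
      ∫ s in t..L, (β * K * M * Real.exp (3 * L) * Om σ L z.re t) *
        Real.exp (-(|t - s| * |z.re|)) := by
    refine intervalIntegral.norm_integral_le_of_norm_le ht.2
      (Eventually.of_forall fun s hs => ?_) ((hci _ _).const_mul _)
    have hs' : s ∈ Icc 0 L := ⟨ht.1.trans hs.1.le, hs.2⟩
    have k1 := hK.b2 z hz s hs'
    have k2 := hH.bd z s
    have k3 := exp_mul_Om_le σ hr hs' ht
    have k4 : Real.exp ((lam z).re * t) * Real.exp (-((lam z).re * s)) =
        Real.exp (-((lam z).re * |t - s|)) := by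
      rw [← Real.exp_add, abs_of_nonpos (sub_nonpos.2 hs.1.le)]; congr 1; ring
    have k5 : (z ^ 2 / QQ L z * B) * (y2 L s z * H z s) =
        B * ((z ^ 2 / QQ L z * y2 L s z) * H z s) := by ring
    rw [k5, norm_mul, norm_mul _ (H z s)]
    calc ‖B‖ * (‖z ^ 2 / QQ L z * y2 L s z‖ * ‖H z s‖)
        ≤ (β * Real.exp ((lam z).re * t)) *
          ((K * Real.exp (-((lam z).re * s))) * (M * Om σ L z.re s)) := by gcongr
      _ = β * K * M * (Real.exp (-((lam z).re * |t - s|)) * Om σ L z.re s) := by rw [← k4]; ring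
      _ ≤ β * K * M * (Real.exp (3 * L) * Om σ L z.re t * Real.exp (-(|t - s| * |z.re|))) := by
          gcongr
      _ = _ := by ring
  rw [intervalIntegral.integral_const_mul (α * M * Real.exp (3 * L) * Om σ L z.re t)] at h1
  rw [intervalIntegral.integral_const_mul (β * K * M * Real.exp (3 * L) * Om σ L z.re t)] at h2
  have h3 := integral_exp_left (L := L) (abs_nonneg z.re) ht
  have h4 := integral_exp_right (L := L) (abs_nonneg z.re) ht
  rw [e]
  set J1 := ∫ s in (0 : ℝ)..t, Real.exp (-(|t - s| * |z.re|))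
  set J2 := ∫ s in t..L, Real.exp (-(|t - s| * |z.re|))
  calc (1 + |z.re|) * ‖(∫ s in (0 : ℝ)..t, (z ^ 2 / QQ L z * A) * (cc s z * H z s)) +
      ∫ s in t..L, (z ^ 2 / QQ L z * B) * (y2 L s z * H z s)‖
      ≤ (1 + |z.re|) * ((α * M * Real.exp (3 * L) * Om σ L z.re t) * J1 +
        (β * K * M * Real.exp (3 * L) * Om σ L z.re t) * J2) := by
        gcongr
        exact (norm_add_le _ _).trans (add_le_add h1 h2)
    _ = (α * M * Real.exp (3 * L) * Om σ L z.re t) * ((1 + |z.re|) * J1) +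
        (β * K * M * Real.exp (3 * L) * Om σ L z.re t) * ((1 + |z.re|) * J2) := by ring
    _ ≤ (α * M * Real.exp (3 * L) * Om σ L z.re t) * (L + 1) +
        (β * K * M * Real.exp (3 * L) * Om σ L z.re t) * (L + 1) := by gcongr
    _ = _ := by ring

/-- The constant in the estimates of the Green operator. -/
noncomputable def Cg (L K : ℝ) : ℝ := (2 * K + K ^ 2) * Real.exp (3 * L) * (L + 1)

theorem Duh_bound' {σ : ℕ} {L η K M : ℝ} (hK : KB L η K) {H : ℂ → ℝ → ℂ} (hH : Bd σ L M H)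
    {z : ℂ} (hz : |z.im| ≤ η) {t : ℝ} (ht : t ∈ Icc 0 L) :
    (1 + |z.re|) * ‖Duh L H z t‖ ≤ Cg L K * M * Om σ L z.re t := by
  have hKp := hK.K_pos
  have hM := hH.nonneg
  have hOm := Om_pos σ L z.re t
  have hL : 0 ≤ L := ht.1.trans ht.2
  refine (green_bound hK hH hz ht (α := K) (β := 1) hKp.le zero_le_one (hK.b2 z hz t ht)
    (by simpa using norm_cc_le z ht.1)).trans ?_
  have : K + 1 * K ≤ 2 * K + K ^ 2 := by nlinarith
  unfold Cg
  gcongr

theorem Duh_bound {σ : ℕ} {L η K M : ℝ} (hK : KB L η K) {H : ℂ → ℝ → ℂ} (hH : Bd σ L M H)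
    {z : ℂ} (hz : |z.im| ≤ η) {t : ℝ} (ht : t ∈ Icc 0 L) :
    ‖Duh L H z t‖ ≤ Cg L K * M * Om σ L z.re t := by
  refine le_trans ?_ (Duh_bound' hK hH hz ht)
  nlinarith [abs_nonneg z.re, norm_nonneg (Duh L H z t)]

theorem Duhd_bound {σ : ℕ} {L η K M : ℝ} (hK : KB L η K) {H : ℂ → ℝ → ℂ} (hH : Bd σ L M H)
    {z : ℂ} (hz : |z.im| ≤ η) {t : ℝ} (ht : t ∈ Icc 0 L) :
    ‖Duhd L H z t‖ ≤ Cg L K * M * (1 + |z.re|) ^ 2 * Om σ L z.re t := by
  have hKp := hK.K_pos
  have hM := hH.nonneg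
  have hOm := Om_pos σ L z.re t
  have hL : 0 ≤ L := ht.1.trans ht.2
  have h := green_bound hK hH hz ht (α := K * (1 + |z.re|) ^ 2) (β := K * (1 + |z.re|) ^ 2)
    (by positivity) (by positivity) (hK.d2 z hz t ht) (hK.d1 z hz t ht)
  have h1 : ‖Duhd L H z t‖ ≤ (1 + |z.re|) * ‖Duhd L H z t‖ := by
    nlinarith [abs_nonneg z.re, norm_nonneg (Duhd L H z t)]
  refine h1.trans (h.trans ?_)
  calc (K * (1 + |z.re|) ^ 2 + K * (1 + |z.re|) ^ 2 * K) * Real.exp (3 * L) * (L + 1) * M *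
        Om σ L z.re t
      = (K + K ^ 2) * Real.exp (3 * L) * (L + 1) * M * (1 + |z.re|) ^ 2 * Om σ L z.re t := by ring
    _ ≤ _ := by
      unfold Cg
      gcongr
      linarith

theorem lin_aux {σ : ℕ} {L η K ε : ℝ} (hK : KB L η K) {φ : ℂ → ℂ} {z : ℂ} (hz : |z.im| ≤ η)
    (hε : 0 ≤ ε) (hφ : ‖φ z‖ ≤ ε / (1 + |z.re|) ^ σ) {t : ℝ} (ht : t ∈ Icc 0 L) {B : ℂ} {β : ℝ}
    (hβ : 0 ≤ β) (hB : ‖B‖ ≤ β * Real.exp ((lam z).re * t)) :
    ‖φ z * (cc L z / QQ L z) * B‖ ≤ ε * K * Real.exp (3 * L) * β * Om σ L z.re t := by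
  have hr := lam_re_ge (hz.trans hK.eta_le)
  have hKp := hK.K_pos
  have hOm := Om_pos σ L z.re t
  have hL : L ∈ Icc 0 L := ⟨ht.1.trans ht.2, le_rfl⟩
  have k1 := hK.amp z hz
  have k3 := exp_mul_Om_le σ hr hL ht
  have k4 : Real.exp (-((lam z).re * L)) * Real.exp ((lam z).re * t) =
      Real.exp (-((lam z).re * |t - L|)) := by
    rw [← Real.exp_add, abs_of_nonpos (sub_nonpos.2 ht.2)]; congr 1; ring
  have k5 : Om σ L z.re L = 1 / (1 + |z.re|) ^ σ := by simp [Om, rho_self]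
  have k6 : Real.exp (-(|t - L| * |z.re|)) ≤ 1 :=
    Real.exp_le_one_iff.2 (by nlinarith [abs_nonneg (t - L), abs_nonneg z.re])
  rw [norm_mul, norm_mul]
  calc ‖φ z‖ * ‖cc L z / QQ L z‖ * ‖B‖
      ≤ ε / (1 + |z.re|) ^ σ * (K * Real.exp (-((lam z).re * L))) *
        (β * Real.exp ((lam z).re * t)) := by gcongr
    _ = ε * K * β * (Real.exp (-((lam z).re * |t - L|)) * Om σ L z.re L) := by
        rw [← k4, k5]; ring
    _ ≤ ε * K * β * (Real.exp (3 * L) * Om σ L z.re t * 1) :=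
        mul_le_mul_of_nonneg_left (k3.trans (by gcongr)) (by positivity)
    _ = _ := by ring

theorem Duh_sub {L : ℝ} {H G : ℂ → ℝ → ℂ} (hH : Continuous fun p : ℂ × ℝ => H p.1 p.2)
    (hG : Continuous fun p : ℂ × ℝ => G p.1 p.2) (z : ℂ) (t : ℝ) :
    Duh L H z t - Duh L G z t = Duh L (fun z t => H z t - G z t) z t := by
  have cH : Continuous fun s => H z s := hH.comp (Continuous.prodMk_right z)
  have cG : Continuous fun s => G z s := hG.comp (Continuous.prodMk_right z)
  have h1 : I1 (fun z t => H z t - G z t) z t = I1 H z t - I1 G z t := by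
    unfold I1
    rw [← intervalIntegral.integral_sub (Continuous.intervalIntegrable (by fun_prop) _ _)
      (Continuous.intervalIntegrable (by fun_prop) _ _)]
    congr 1; funext s; ring
  have h2 : I2 L (fun z t => H z t - G z t) z t = I2 L H z t - I2 L G z t := by
    unfold I2
    rw [← intervalIntegral.integral_sub (Continuous.intervalIntegrable (by fun_prop) _ _)
      (Continuous.intervalIntegrable (by fun_prop) _ _)]
    congr 1; funext s; ring
  unfold Duh
  rw [h1, h2]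
  ring

theorem Duh_differentiableOn {L η K : ℝ} (hK : KB L η K) {H : ℂ → ℝ → ℂ}
    (hH : Continuous fun p : ℂ × ℝ => H p.1 p.2)
    (hd : ∀ s, DifferentiableOn ℂ (fun z => H z s) (strip η)) (t : ℝ) :
    DifferentiableOn ℂ (fun z => Duh L H z t) (strip η) := by
  have h1 : DifferentiableOn ℂ (fun z => I1 H z t) (strip η) :=
    differentiableOn_intervalIntegral (isOpen_strip η) (F := fun z s => cc s z * H z s)
      (Continuous.mul (continuous_cc_comp continuous_snd continuous_fst) hH)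
      (fun s => (differentiable_cc s).differentiableOn.mul (hd s)) _ _
  have h2 : DifferentiableOn ℂ (fun z => I2 L H z t) (strip η) :=
    differentiableOn_intervalIntegral (isOpen_strip η) (F := fun z s => y2 L s z * H z s)
      (Continuous.mul (continuous_y2_comp L continuous_snd continuous_fst) hH)
      (fun s => (differentiable_y2 L s).differentiableOn.mul (hd s)) _ _
  unfold Duh
  refine DifferentiableOn.mul (DifferentiableOn.div (by fun_prop)
    (differentiable_QQ L).differentiableOn fun z hz => hK.ne z (le_of_lt hz)) ?_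
  exact ((differentiable_y2 L t).differentiableOn.mul h1).add
    ((differentiable_cc t).differentiableOn.mul h2)

theorem Duh_sym {L : ℝ} {H : ℂ → ℝ → ℂ} (hs : ∀ (s k : ℝ), H (-k) s = conj (H k s)) (k t : ℝ) :
    Duh L H (-k) t = conj (Duh L H k t) := by
  have h1 : I1 H (-k) t = conj (I1 H k t) := by
    unfold I1
    rw [← intervalIntegral.intervalIntegral_conj]
    congr 1; funext s
    rw [map_mul, conj_cc, cc_neg, hs]
  have h2 : I2 L H (-k) t = conj (I2 L H k t) := by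
    unfold I2
    rw [← intervalIntegral.intervalIntegral_conj]
    congr 1; funext s
    rw [map_mul, conj_y2, y2_neg, hs]
  unfold Duh
  rw [h1, h2, y2_neg, cc_neg, QQ_neg]
  simp [conj_y2, conj_cc, conj_QQ]

/-- Projection onto the closed strip. -/
noncomputable def cl (η : ℝ) (z : ℂ) : ℂ := z.re + (max (-η) (min η z.im) : ℝ) * I

/-- Projection onto the closed time interval. -/
noncomputable def ct (L t : ℝ) : ℝ := max 0 (min L t)

@[fun_prop]
theorem continuous_cl (η : ℝ) : Continuous (cl η) := by unfold cl; fun_prop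

@[fun_prop]
theorem continuous_ct (L : ℝ) : Continuous (ct L) := by unfold ct; fun_prop

theorem cl_re (η : ℝ) (z : ℂ) : (cl η z).re = z.re := by simp [cl]

theorem cl_im_le {η : ℝ} (hη : 0 ≤ η) (z : ℂ) : |(cl η z).im| ≤ η := by
  have : (cl η z).im = max (-η) (min η z.im) := by simp [cl]
  rw [this, abs_le]
  exact ⟨le_max_left _ _, max_le (by linarith) (min_le_left _ _)⟩

theorem cl_eq {η : ℝ} {z : ℂ} (hz : |z.im| ≤ η) : cl η z = z := by
  rw [abs_le] at hz
  unfold cl
  rw [min_eq_right hz.2, max_eq_right hz.1, re_add_im]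

theorem ct_mem {L : ℝ} (hL : 0 ≤ L) (t : ℝ) : ct L t ∈ Icc 0 L :=
  ⟨le_max_left _ _, max_le hL (min_le_left _ _)⟩

theorem ct_eq {L t : ℝ} (ht : t ∈ Icc 0 L) : ct L t = t := by
  unfold ct
  rw [min_eq_right ht.2, max_eq_right ht.1]

theorem rho_ct {L : ℝ} (hL : 0 ≤ L) (t : ℝ) : rho L (ct L t) = rho L t := by
  rcases le_total t 0 with h | h
  · have h1 : ct L t = 0 := max_eq_left ((min_le_right _ _).trans h)
    rw [h1]
    unfold rho
    rw [max_eq_left (min_le_left _ _), max_eq_left ((min_le_left _ _).trans h)]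
  · rcases le_total t L with h' | h'
    · rw [ct_eq ⟨h, h'⟩]
    · have h1 : ct L t = L := by
        unfold ct; rw [min_eq_left h', max_eq_right hL]
      rw [h1, rho_self]
      unfold rho
      rw [max_eq_left ((min_le_right _ _).trans (by linarith))]

theorem Om_ct (σ : ℕ) {L : ℝ} (hL : 0 ≤ L) (x t : ℝ) : Om σ L x (ct L t) = Om σ L x t := by
  unfold Om; rw [rho_ct hL]

/-- The map whose fixed point we look for. -/
noncomputable def Phi (L η : ℝ) (φ : ℂ → ℂ) (w : ℂ → ℝ → ℂ) (z : ℂ) (t : ℝ) : ℂ :=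
  lin L φ (cl η z) (ct L t) + Duh L (conv w w) (cl η z) (ct L t)

theorem Phi_Bd {σ : ℕ} (hσ : 2 ≤ σ) {L η K ε M : ℝ} (hL : 0 ≤ L) (hK : KB L η K) {φ : ℂ → ℂ}
    (hφd : DifferentiableOn ℂ φ (strip (1 / 2))) (hε : 0 ≤ ε)
    (hφ : ∀ z : ℂ, |z.im| ≤ η → ‖φ z‖ ≤ ε / (1 + |z.re|) ^ σ) {w : ℂ → ℝ → ℂ} (hw : Bd σ L M w) :
    Bd σ L (ε * K * Real.exp (3 * L) + Cg L K * (Cc σ * M * M)) (Phi L η φ w) := by
  have hH := hw.conv hσ hw
  have him := cl_im_le hK.eta_pos.le
  constructor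
  · have c1 : Continuous fun p : ℂ × ℝ => φ (cl η p.1) := by
      refine hφd.continuousOn.comp_continuous (by fun_prop) fun p => ?_
      exact lt_of_le_of_lt ((him p.1).trans hK.eta_le) (by norm_num)
    have c2 : Continuous fun p : ℂ × ℝ => (QQ L (cl η p.1))⁻¹ :=
      Continuous.inv₀ (by fun_prop) fun p => hK.ne _ (him p.1)
    have c3 : Continuous fun p : ℂ × ℝ => I1 (conv w w) (cl η p.1) (ct L p.2) :=
      (continuous_I1 hH.cont).comp (f := fun p : ℂ × ℝ => (cl η p.1, ct L p.2)) (by fun_prop)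
    have c4 : Continuous fun p : ℂ × ℝ => I2 L (conv w w) (cl η p.1) (ct L p.2) :=
      (continuous_I2 L hH.cont).comp (f := fun p : ℂ × ℝ => (cl η p.1, ct L p.2)) (by fun_prop)
    have c5 : Continuous fun p : ℂ × ℝ => cl η p.1 := by fun_prop
    have c6 : Continuous fun p : ℂ × ℝ => ct L p.2 := by fun_prop
    simp only [Phi, lin, Duh, div_eq_mul_inv]
    exact ((c1.mul ((continuous_cc_comp continuous_const c5).mul c2)).mul
      (continuous_cc_comp c6 c5)).add (((c5.pow 2).mul c2).mul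
        (((continuous_y2_comp L c6 c5).mul c3).add ((continuous_cc_comp c6 c5).mul c4)))
  · intro z t
    have h1 := lin_aux hK (him z) hε (hφ _ (him z)) (ct_mem hL t) (β := 1) zero_le_one
      (B := cc (ct L t) (cl η z)) (by simpa using norm_cc_le _ (ct_mem hL t).1)
    have h2 := Duh_bound hK hH (him z) (ct_mem hL t)
    rw [cl_re, Om_ct σ hL] at h1 h2
    refine (norm_add_le _ _).trans ?_
    unfold lin
    linarith

theorem exists_fixed {σ : ℕ} (hσ : 2 ≤ σ) {L η K : ℝ} (hL : 0 ≤ L) (hK : KB L η K) :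
    ∃ ε : ℝ, 0 < ε ∧ ∀ φ : ℂ → ℂ, DifferentiableOn ℂ φ (strip (1 / 2)) →
      (∀ z : ℂ, |z.im| ≤ η → ‖φ z‖ ≤ ε / (1 + |z.re|) ^ σ) →
      (∀ k : ℝ, φ (-k) = conj (φ k)) →
      ∃ (w : ℂ → ℝ → ℂ) (M : ℝ), Bd σ L M w ∧
        (∀ t, DifferentiableOn ℂ (fun z => w z t) (strip η)) ∧
        (∀ t k : ℝ, w (-k) t = conj (w k t)) ∧
        ∀ k : ℝ, ∀ t ∈ Icc 0 L, w k t = lin L φ k t + Duh L (conv w w) k t := by
  have hKp := hK.K_pos
  have hCc := Cc_pos σ
  have hCg : 0 < Cg L K := by unfold Cg; positivity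
  set R : ℝ := 1 / (4 * (Cg L K * Cc σ)) with hR
  have hRpos : 0 < R := by positivity
  set ε : ℝ := R / (2 * (K * Real.exp (3 * L))) with hε
  have hεpos : 0 < ε := by positivity
  refine ⟨ε, hεpos, fun φ hφd hφb hφs => ?_⟩
  let W : ((ℂ × ℝ) →ᵇ ℂ) → ℂ → ℝ → ℂ := fun V z t => (Om σ L z.re t : ℂ) * V (z, t)
  have hWB : ∀ (V : (ℂ × ℝ) →ᵇ ℂ) (M : ℝ), ‖V‖ ≤ M → Bd σ L M (W V) := by
    intro V M hM
    constructor
    · have := V.continuous
      simp only [W]
      fun_prop
    · intro z t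
      simp only [W, norm_mul, Complex.norm_real, Real.norm_eq_abs, abs_of_pos (Om_pos _ _ _ _)]
      rw [mul_comm]
      gcongr
      · exact (Om_pos _ _ _ _).le
      · exact (V.norm_coe_le_norm _).trans hM
  have hOmne : ∀ x t, ((Om σ L x t : ℝ) : ℂ) ≠ 0 := fun x t => by
    exact_mod_cast (Om_pos σ L x t).ne'
  have hdiv : ∀ {M : ℝ} {c : ℂ} {x t : ℝ}, ‖c‖ ≤ M * Om σ L x t →
      ‖c / (Om σ L x t : ℂ)‖ ≤ M := by
    intro M c x t h
    rw [norm_div, Complex.norm_real, Real.norm_eq_abs, abs_of_pos (Om_pos _ _ _ _),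
      div_le_iff₀ (Om_pos _ _ _ _)]
    exact h
  let F : ((ℂ × ℝ) →ᵇ ℂ) → ((ℂ × ℝ) →ᵇ ℂ) := fun V =>
    ofNormedAddCommGroup (fun p => Phi L η φ (W V) p.1 p.2 / (Om σ L p.1.re p.2 : ℂ))
      (Continuous.div (Phi_Bd hσ hL hK hφd hεpos.le hφb (hWB V _ le_rfl)).cont (by fun_prop)
        fun p => hOmne _ _) _
      (fun p => hdiv ((Phi_Bd hσ hL hK hφd hεpos.le hφb (hWB V _ le_rfl)).bd p.1 p.2))
  have hWF : ∀ V z t, W (F V) z t = Phi L η φ (W V) z t := by
    intro V z t
    simp only [W, F, coe_ofNormedAddCommGroup]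
    field_simp [hOmne]
  let S : Set ((ℂ × ℝ) →ᵇ ℂ) := {V | ‖V‖ ≤ R ∧
    (∀ t, DifferentiableOn ℂ (fun z => W V z t) (strip η)) ∧
    ∀ t k : ℝ, W V (-k) t = conj (W V k t)}
  have hSc : IsClosed S := by
    refine (isClosed_le continuous_norm continuous_const).inter (IsClosed.inter ?_ ?_)
    · refine IsSeqClosed.isClosed fun u V hu hV t => ?_
      refine TendstoLocallyUniformlyOn.differentiableOn (φ := atTop)
        (F := fun n z => W (u n) z t) ?_ (Eventually.of_forall fun n => hu n t) (isOpen_strip η)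
      refine TendstoUniformlyOn.tendstoLocallyUniformlyOn ?_
      rw [Metric.tendstoUniformlyOn_iff]
      intro δ hδ
      filter_upwards [(Metric.tendsto_nhds.1 hV) δ hδ] with n hn z _
      refine lt_of_le_of_lt ?_ hn
      rw [dist_comm (u n) V, dist_eq_norm]
      simp only [W]
      rw [← mul_sub, norm_mul, Complex.norm_real, Real.norm_eq_abs, abs_of_pos (Om_pos _ _ _ _),
        ← dist_eq_norm]
      have h1 := Om_le_one σ L z.re t
      have h2 := BoundedContinuousFunction.dist_coe_le_dist (f := V) (g := u n) (z, t)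
      nlinarith [dist_nonneg (x := V (z, t)) (y := u n (z, t)), Om_pos σ L z.re t]
    · change IsClosed {V : (ℂ × ℝ) →ᵇ ℂ | ∀ t k : ℝ, W V (-k) t = conj (W V k t)}
      simp only [ofPred_forall]
      refine isClosed_iInter fun t => isClosed_iInter fun k => isClosed_eq ?_ ?_
      · simp only [W]; fun_prop
      · simp only [W]; fun_prop
  have hmaps : MapsTo F S S := by
    rintro V ⟨hV1, hV2, hV3⟩
    have hB := hWB V R hV1
    refine ⟨?_, fun t => ?_, fun t k => ?_⟩
    · rw [BoundedContinuousFunction.norm_le hRpos.le]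
      intro p
      refine hdiv (((Phi_Bd hσ hL hK hφd hεpos.le hφb hB).bd p.1 p.2).trans ?_)
      have e1 : ε * K * Real.exp (3 * L) = R / 2 := by rw [hε]; field_simp
      have e2 : Cg L K * (Cc σ * R * R) = R / 4 := by
        rw [hR]; field_simp
      rw [e1, e2]
      gcongr
      · exact (Om_pos _ _ _ _).le
      · linarith
    · simp only [hWF]
      have h1 := Duh_differentiableOn hK (hB.conv hσ hB).cont
        (fun s => conv_differentiableOn hσ hB s (hV2 s)) (ct L t)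
      have h2 : DifferentiableOn ℂ (fun z => lin L φ z (ct L t)) (strip η) := by
        unfold lin
        refine ((hφd.mono fun z hz => ?_).mul (DifferentiableOn.div
          (differentiable_cc L).differentiableOn (differentiable_QQ L).differentiableOn
          fun z hz => hK.ne z (le_of_lt hz))).mul (differentiable_cc _).differentiableOn
        exact lt_of_lt_of_le hz (hK.eta_le.trans (by norm_num))
      refine (h2.add h1).congr fun z hz => ?_
      simp only [Phi, cl_eq (le_of_lt hz), Pi.add_apply]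
    · simp only [hWF, Phi]
      have e1 : cl η (-(k : ℂ)) = -k := cl_eq (by simpa using hK.eta_pos.le)
      have e2 : cl η (k : ℂ) = k := cl_eq (by simpa using hK.eta_pos.le)
      rw [e1, e2, Duh_sym (fun s k => conv_sym (hV3 s) k), map_add]
      congr 1
      unfold lin
      rw [hφs, cc_neg, cc_neg, QQ_neg]
      simp [conj_cc, conj_QQ]
  have hcontr : ContractingWith (1 / 2) (hmaps.restrict F S S) := by
    refine ⟨by norm_num, LipschitzWith.of_dist_le_mul ?_⟩
    rintro ⟨U, hU⟩ ⟨V, hV⟩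
    simp only [Subtype.dist_eq, MapsTo.val_restrict_apply]
    rw [BoundedContinuousFunction.dist_le (by positivity)]
    intro p
    have hBU := hWB U R hU.1
    have hBV := hWB V R hV.1
    have hD : ∀ z t, ‖W U z t - W V z t‖ ≤ dist U V * Om σ L z.re t := by
      intro z t
      simp only [W]
      rw [← mul_sub, norm_mul, Complex.norm_real, Real.norm_eq_abs, abs_of_pos (Om_pos _ _ _ _),
        ← dist_eq_norm, mul_comm]
      gcongr
      · exact (Om_pos _ _ _ _).le
      · exact BoundedContinuousFunction.dist_coe_le_dist _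
    have hH := (hBU.conv hσ hBU).sub (hBV.conv hσ hBV) (conv_sub_le hσ hBU hBV hD)
    have h1 := Duh_bound hK hH (cl_im_le hK.eta_pos.le p.1) (ct_mem hL p.2)
    rw [cl_re, Om_ct σ hL, ← Duh_sub (hBU.conv hσ hBU).cont (hBV.conv hσ hBV).cont] at h1
    simp only [F, coe_ofNormedAddCommGroup]
    rw [dist_eq_norm, ← sub_div]
    refine hdiv ?_
    simp only [Phi, add_sub_add_left_eq_sub]
    refine h1.trans (le_of_eq ?_)
    rw [hR]
    push_cast
    field_simp
    ring
  have h0 : (0 : (ℂ × ℝ) →ᵇ ℂ) ∈ S := by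
    refine ⟨by simpa using hRpos.le, fun t => ?_, fun t k => ?_⟩
    · simp [W]
    · simp [W]
  obtain ⟨V, hVS, hVfix, -⟩ := hcontr.exists_fixedPoint' hSc.isComplete hmaps h0 (edist_ne_top _ _)
  refine ⟨W V, R, hWB V R hVS.1, hVS.2.1, hVS.2.2, fun k t ht => ?_⟩
  have h := hWF V k t
  rw [hVfix.eq] at h
  rw [h, Phi, cl_eq (by simpa using hK.eta_pos.le), ct_eq ht]

end Pool.Agent.P.MP_0afb51_an
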