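import Pool.Agent.P.MP_0afb51_an.Entire

/-!
Bounds in a horizontal strip for the Green kernel of a two-point boundary value problem in time.
-/

namespace Pool.Agent.P.MP_0afb51_an

open Complex Set Filter Topology
open scoped ComplexConjugate

theorem norm_cosh_le {w : ℂ} (hw : 0 ≤ w.re) : ‖cosh w‖ ≤ Real.exp w.re := by
  have h1 : ‖cosh w‖ ≤ (‖exp w‖ + ‖exp (-w)‖) / 2 := by
    rw [Complex.cosh, norm_div]
    simp only [Complex.norm_ofNat]
    gcongr
    exact norm_add_le _ _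
  rw [Complex.norm_exp, Complex.norm_exp, neg_re] at h1
  have h2 : Real.exp (-w.re) ≤ Real.exp w.re := Real.exp_le_exp.2 (by linarith)
  linarith

theorem norm_sinh_le {w : ℂ} (hw : 0 ≤ w.re) : ‖sinh w‖ ≤ Real.exp w.re := by
  have h1 : ‖sinh w‖ ≤ (‖exp w‖ + ‖exp (-w)‖) / 2 := by
    rw [Complex.sinh, norm_div]
    simp only [Complex.norm_ofNat]
    gcongr
    exact norm_sub_le _ _
  rw [Complex.norm_exp, Complex.norm_exp, neg_re] at h1
  have h2 : Real.exp (-w.re) ≤ Real.exp w.re := Real.exp_le_exp.2 (by linarith)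
  linarith

theorem le_norm_cosh {w : ℂ} (hw : 0 ≤ w.re) : (Real.exp w.re - 1) / 2 ≤ ‖cosh w‖ := by
  have h1 : (‖exp w‖ - ‖exp (-w)‖) / 2 ≤ ‖cosh w‖ := by
    rw [Complex.cosh, norm_div]
    simp only [Complex.norm_ofNat]
    gcongr
    have := norm_sub_norm_le (exp w) (-exp (-w))
    simpa using this
  rw [Complex.norm_exp, Complex.norm_exp, neg_re] at h1
  have h2 : Real.exp (-w.re) ≤ 1 := Real.exp_le_one_iff.2 (by linarith)
  linarith

theorem lam_re_ge {z : ℂ} (hz : |z.im| ≤ 1 / 4) : 2 * |z.re| - 3 ≤ (lam z).re := by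
  have h0 := lam_re_nonneg z
  have h1 : (lam z ^ 2).re = (mu z).re := by rw [lam_sq]
  have h2 : (mu z).re = z.re ^ 4 - 6 * z.re ^ 2 * z.im ^ 2 + z.im ^ 4 - z.re ^ 2 + z.im ^ 2 := by
    simp [mu, pow_succ]; ring
  have h3 : (lam z ^ 2).re = (lam z).re ^ 2 - (lam z).im ^ 2 := by
    simp [pow_succ]
  have hy : z.im ^ 2 ≤ 1 / 16 := by nlinarith [sq_abs z.im, abs_nonneg z.im]
  by_cases hx : 2 * |z.re| - 3 ≤ 0
  · linarith
  · push Not at hx
    have hx2 : z.re ^ 2 = |z.re| ^ 2 := (sq_abs _).symm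
    have hx4 : z.re ^ 4 = |z.re| ^ 4 := by
      rw [show (4 : ℕ) = 2 * 2 by norm_num, pow_mul, pow_mul, hx2]
    set a := |z.re|
    have h4 : a ^ 4 - 11 / 8 * a ^ 2 ≤ (lam z).re ^ 2 := by
      nlinarith [sq_nonneg (lam z).im, sq_nonneg (z.im ^ 2), sq_nonneg z.im, sq_nonneg a]
    have h5 : (2 * a - 3) ^ 2 ≤ (lam z).re ^ 2 := by
      have ha : 0 ≤ a - 3 / 2 := by linarith
      nlinarith [mul_nonneg ha ha, mul_nonneg ha (mul_nonneg ha ha),
        mul_nonneg (mul_nonneg ha ha) (mul_nonneg ha ha)]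
    exact (abs_le_of_sq_le_sq' h5 h0).2

theorem norm_le_one_add {z : ℂ} (hz : |z.im| ≤ 1 / 4) : ‖z‖ ≤ 1 + |z.re| := by
  have := Complex.norm_le_abs_re_add_abs_im z
  linarith

theorem norm_mu_le {z : ℂ} (hz : |z.im| ≤ 1 / 4) : ‖mu z‖ ≤ 2 * (1 + |z.re|) ^ 4 := by
  have h1 := norm_le_one_add hz
  have h2 : ‖mu z‖ ≤ ‖z‖ ^ 4 + ‖z‖ ^ 2 := by
    have := norm_sub_le (z ^ 4) (z ^ 2)
    simpa [mu] using this
  have h3 : ‖z‖ ^ 4 ≤ (1 + |z.re|) ^ 4 := by gcongr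
  have h4 : ‖z‖ ^ 2 ≤ (1 + |z.re|) ^ 2 := by gcongr
  have h5 : (1 + |z.re|) ^ 2 ≤ (1 + |z.re|) ^ 4 :=
    pow_le_pow_right₀ (by linarith [abs_nonneg z.re]) (by norm_num)
  linarith

theorem re_lam_mul (z : ℂ) (τ : ℝ) : (lam z * τ).re = (lam z).re * τ := by simp

theorem norm_cc_le (z : ℂ) {τ : ℝ} (hτ : 0 ≤ τ) : ‖cc τ z‖ ≤ Real.exp ((lam z).re * τ) := by
  rw [cc_eq, ← re_lam_mul]
  exact norm_cosh_le (by rw [re_lam_mul]; exact mul_nonneg (lam_re_nonneg z) hτ)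

theorem norm_lam_ge {z : ℂ} (hx : 3 ≤ |z.re|) : (1 + |z.re|) ^ 2 ≤ 4 * ‖lam z‖ := by
  have h1 : ‖lam z‖ ^ 2 = ‖z‖ ^ 2 * ‖z ^ 2 - 1‖ := by
    rw [← norm_pow, lam_sq, ← norm_pow, ← norm_mul]
    congr 1
    unfold mu; ring
  have h2 : |z.re| ≤ ‖z‖ := Complex.abs_re_le_norm z
  have h3 : ‖z‖ ^ 2 - 1 ≤ ‖z ^ 2 - 1‖ := by
    have := norm_sub_norm_le (z ^ 2) 1
    simpa using this
  set a := |z.re|
  have h4 : a ^ 2 ≤ ‖z‖ ^ 2 := by gcongr
  have h5 : a ^ 2 * (a ^ 2 - 1) ≤ ‖lam z‖ ^ 2 := by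
    rw [h1]
    apply mul_le_mul h4 (by linarith) (by nlinarith) (by positivity)
  have h6 : ((1 + a) ^ 2) ^ 2 ≤ (4 * ‖lam z‖) ^ 2 := by
    have ha : 0 ≤ a - 3 := by linarith
    nlinarith [mul_nonneg ha ha, mul_nonneg ha (mul_nonneg ha ha),
        mul_nonneg (mul_nonneg ha ha) (mul_nonneg ha ha)]
  exact (abs_le_of_sq_le_sq' h6 (by positivity)).2

theorem exists_ss_bound (L : ℝ) : ∃ K : ℝ, 0 < K ∧ ∀ z : ℂ, |z.im| ≤ 1 / 4 → ∀ τ ∈ Icc 0 L,
    (1 + |z.re|) ^ 2 * ‖ss τ z‖ ≤ K * Real.exp ((lam z).re * τ) := by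
  obtain ⟨K₀, hK₀⟩ := ((isCompact_Icc (a := (0 : ℝ)) (b := L)).prod
    (isCompact_closedBall (0 : ℂ) 4)).exists_bound_of_continuousOn
    (f := fun p : ℝ × ℂ => ss p.1 p.2) continuous_ss.continuousOn
  refine ⟨16 * |K₀| + 4, by positivity, fun z hz τ hτ => ?_⟩
  have hexp : 1 ≤ Real.exp ((lam z).re * τ) :=
    Real.one_le_exp (mul_nonneg (lam_re_nonneg z) hτ.1)
  by_cases hx : 3 ≤ |z.re|
  · have h1 := norm_lam_ge hx
    have h2 : ‖lam z‖ * ‖ss τ z‖ ≤ Real.exp ((lam z).re * τ) := by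
      rw [← norm_mul, lam_mul_ss, ← re_lam_mul]
      exact norm_sinh_le (by rw [re_lam_mul]; exact mul_nonneg (lam_re_nonneg z) hτ.1)
    have h3 : (1 + |z.re|) ^ 2 * ‖ss τ z‖ ≤ 4 * ‖lam z‖ * ‖ss τ z‖ := by gcongr
    nlinarith [abs_nonneg K₀]
  · push Not at hx
    have h1 : ‖ss τ z‖ ≤ |K₀| := by
      refine (hK₀ (τ, z) ⟨hτ, ?_⟩).trans (le_abs_self _)
      rw [mem_closedBall_zero_iff]
      have := norm_le_one_add hz
      linarith
    have h2 : (1 + |z.re|) ^ 2 ≤ 16 := by nlinarith [abs_nonneg z.re]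
    have h3 : (1 + |z.re|) ^ 2 * ‖ss τ z‖ ≤ 16 * |K₀| := by gcongr
    nlinarith [abs_nonneg K₀]

/-- Minus the Wronskian. -/
noncomputable def QQ (L : ℝ) (z : ℂ) : ℂ := 1 + cc L z ^ 2

@[fun_prop]
theorem continuous_QQ (L : ℝ) : Continuous (QQ L) := by
  unfold QQ; fun_prop

@[fun_prop]
theorem differentiable_QQ (L : ℝ) : Differentiable ℂ (QQ L) := by
  unfold QQ; fun_prop

theorem QQ_real (L k : ℝ) : QQ L k = ((1 + (cc L k).re ^ 2 : ℝ) : ℂ) := by
  have h : cc L k = ((cc L k).re : ℂ) := by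
    apply Complex.ext <;> simp [cc_im]
  rw [QQ, h]
  simp

theorem one_le_norm_QQ (L k : ℝ) : 1 ≤ ‖QQ L k‖ := by
  rw [QQ_real, Complex.norm_real, Real.norm_eq_abs, abs_of_nonneg (by positivity)]
  nlinarith [sq_nonneg (cc L k).re]

theorem exists_QQ_bound {L : ℝ} (hL : 1 ≤ L) : ∃ η κ : ℝ, 0 < η ∧ η ≤ 1 / 4 ∧ 0 < κ ∧
    ∀ z : ℂ, |z.im| ≤ η → κ * Real.exp ((lam z).re * L) ^ 2 ≤ ‖QQ L z‖ := by
  have huc : UniformContinuousOn (QQ L) (Metric.closedBall 0 4) :=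
    (isCompact_closedBall (0 : ℂ) 4).uniformContinuousOn_of_continuous
      (continuous_QQ L).continuousOn
  obtain ⟨δ, hδ, hδ'⟩ := Metric.uniformContinuousOn_iff.1 huc (1 / 2) (by norm_num)
  refine ⟨min (1 / 4) (δ / 2), min (1 / 8) (1 / (2 * Real.exp (23 * L) ^ 2)), by positivity,
    min_le_left _ _, by positivity, fun z hz => ?_⟩
  have hz1 : |z.im| ≤ 1 / 4 := hz.trans (min_le_left _ _)
  have hz2 : |z.im| ≤ δ / 2 := hz.trans (min_le_right _ _)
  by_cases hx : 3 ≤ |z.re|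
  · have h1 := lam_re_ge hz1
    have h2 : 3 ≤ (lam z).re * L := by nlinarith
    have h3 : (Real.exp ((lam z).re * L) - 1) / 2 ≤ ‖cc L z‖ := by
      rw [cc_eq, ← re_lam_mul]
      exact le_norm_cosh (by rw [re_lam_mul]; linarith)
    have h4 : ‖cc L z‖ ^ 2 - 1 ≤ ‖QQ L z‖ := by
      have := norm_sub_norm_le (cc L z ^ 2) (-1)
      simpa [QQ, add_comm] using this
    have h5 : 16 ≤ Real.exp ((lam z).re * L) := by
      have e1 : Real.exp 3 ≤ Real.exp ((lam z).re * L) := Real.exp_le_exp.2 h2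
      have e2 : Real.exp 3 = Real.exp 1 ^ 3 := by rw [← Real.exp_nat_mul]; norm_num
      have e3 : (2.7 : ℝ) ≤ Real.exp 1 := by linarith [Real.exp_one_gt_d9]
      have e4 : (2.7 : ℝ) ^ 3 ≤ Real.exp 1 ^ 3 := by gcongr
      norm_num at e4
      linarith
    set E := Real.exp ((lam z).re * L)
    have h6 : ((E - 1) / 2) ^ 2 ≤ ‖cc L z‖ ^ 2 := by
      gcongr
      linarith
    have h7 : min (1 / 8) (1 / (2 * Real.exp (23 * L) ^ 2)) * E ^ 2 ≤ 1 / 8 * E ^ 2 := by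
      gcongr
      exact min_le_left _ _
    nlinarith
  · push Not at hx
    have hzn := norm_le_one_add hz1
    have h1 : dist (QQ L z) (QQ L z.re) < 1 / 2 := by
      apply hδ'
      · rw [mem_closedBall_zero_iff]; linarith
      · rw [mem_closedBall_zero_iff, Complex.norm_real, Real.norm_eq_abs]; linarith
      · rw [dist_eq_norm]
        have : z - z.re = z.im * I := by
          apply Complex.ext <;> simp
        rw [this]
        simp only [Complex.norm_mul, Complex.norm_real, Real.norm_eq_abs, Complex.norm_I, mul_one]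
        linarith
    have h2 : 1 / 2 ≤ ‖QQ L z‖ := by
      have := one_le_norm_QQ L z.re
      have h3 := norm_sub_norm_le (QQ L z.re) (QQ L z)
      rw [dist_comm, dist_eq_norm] at h1
      linarith
    have h3 : (lam z).re ≤ 23 := by
      have e1 : ‖lam z‖ ^ 2 ≤ 23 ^ 2 := by
        rw [← norm_pow, lam_sq]
        have e2 := norm_mu_le hz1
        have e3 : (1 + |z.re|) ^ 4 ≤ 4 ^ 4 := by
          gcongr
          linarith
        linarith
      have e4 := (abs_le_of_sq_le_sq' e1 (by norm_num)).2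
      exact (Complex.re_le_norm _).trans e4
    have h4 : Real.exp ((lam z).re * L) ^ 2 ≤ Real.exp (23 * L) ^ 2 := by
      gcongr
    have h5 : min (1 / 8) (1 / (2 * Real.exp (23 * L) ^ 2)) * Real.exp ((lam z).re * L) ^ 2 ≤
        1 / (2 * Real.exp (23 * L) ^ 2) * Real.exp (23 * L) ^ 2 := by
      gcongr
      exact min_le_right _ _
    have h6 : 1 / (2 * Real.exp (23 * L) ^ 2) * Real.exp (23 * L) ^ 2 = 1 / 2 := by
      field_simp
    linarith

/-- The solution adapted to the right end point. -/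
noncomputable def y2 (L t : ℝ) (z : ℂ) : ℂ := cc L z * ss (L - t) z - ss t z

/-- Its time derivative. -/
noncomputable def y2d (L t : ℝ) (z : ℂ) : ℂ := -(cc L z * cc (L - t) z) - cc t z

theorem hasDerivAt_y2 (L : ℝ) (z : ℂ) (t : ℝ) :
    HasDerivAt (fun s => y2 L s z) (y2d L t z) t := by
  have h1 : HasDerivAt (fun s : ℝ => ss (L - s) z) (-cc (L - t) z) t := by
    exact (hasDerivAt_ss z (L - t)).comp_const_sub L t
  refine ((h1.const_mul (cc L z)).sub (hasDerivAt_ss z t)).congr_deriv ?_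
  unfold y2d
  ring

theorem hasDerivAt_y2d (L : ℝ) (z : ℂ) (t : ℝ) :
    HasDerivAt (fun s => y2d L s z) (mu z * y2 L t z) t := by
  have h1 : HasDerivAt (fun s : ℝ => cc (L - s) z) (-(mu z * ss (L - t) z)) t := by
    exact (hasDerivAt_cc z (L - t)).comp_const_sub L t
  refine ((h1.const_mul (cc L z)).neg.sub (hasDerivAt_cc z t)).congr_deriv ?_
  unfold y2
  ring

theorem wronskian (L t : ℝ) (z : ℂ) :
    y2d L t z * cc t z - mu z * ss t z * y2 L t z = -QQ L z := by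
  have h1 := cc_add (L - t) t z
  rw [sub_add_cancel] at h1
  have h2 := cc_sq_sub t z
  unfold y2d y2 QQ
  linear_combination (cc L z) * h1 - h2

@[fun_prop]
theorem continuous_y2_comp (L : ℝ) {X : Type*} [TopologicalSpace X] {f : X → ℝ} {g : X → ℂ}
    (hf : Continuous f) (hg : Continuous g) : Continuous fun x => y2 L (f x) (g x) := by
  unfold y2; fun_prop

@[fun_prop]
theorem continuous_y2d_comp (L : ℝ) {X : Type*} [TopologicalSpace X] {f : X → ℝ} {g : X → ℂ}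
    (hf : Continuous f) (hg : Continuous g) : Continuous fun x => y2d L (f x) (g x) := by
  unfold y2d; fun_prop

@[fun_prop]
theorem differentiable_y2 (L t : ℝ) : Differentiable ℂ fun z => y2 L t z := by
  unfold y2; fun_prop

theorem y2_neg (L t : ℝ) (z : ℂ) : y2 L t (-z) = y2 L t z := by simp [y2, cc_neg, ss_neg]

theorem QQ_neg (L : ℝ) (z : ℂ) : QQ L (-z) = QQ L z := by simp [QQ, cc_neg]

theorem conj_y2 (L t k : ℝ) : conj (y2 L t k) = y2 L t k := by simp [y2, conj_cc, conj_ss]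

theorem conj_QQ (L k : ℝ) : conj (QQ L k) = QQ L k := by simp [QQ, conj_cc]

/-- All kernel bounds, on a strip of half-width `η`, with constant `K`. -/
structure KB (L η K : ℝ) : Prop where
  eta_pos : 0 < η
  eta_le : η ≤ 1 / 4
  K_pos : 0 < K
  ne : ∀ z : ℂ, |z.im| ≤ η → QQ L z ≠ 0
  amp : ∀ z : ℂ, |z.im| ≤ η → ‖cc L z / QQ L z‖ ≤ K * Real.exp (-((lam z).re * L))
  d1 : ∀ z : ℂ, |z.im| ≤ η → ∀ t ∈ Icc 0 L,
    ‖mu z * ss t z‖ ≤ K * (1 + |z.re|) ^ 2 * Real.exp ((lam z).re * t)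
  b2 : ∀ z : ℂ, |z.im| ≤ η → ∀ t ∈ Icc 0 L,
    ‖z ^ 2 / QQ L z * y2 L t z‖ ≤ K * Real.exp (-((lam z).re * t))
  d2 : ∀ z : ℂ, |z.im| ≤ η → ∀ t ∈ Icc 0 L,
    ‖z ^ 2 / QQ L z * y2d L t z‖ ≤ K * (1 + |z.re|) ^ 2 * Real.exp (-((lam z).re * t))

theorem exists_KB {L : ℝ} (hL : 1 ≤ L) : ∃ η K, KB L η K := by
  obtain ⟨η, κ, hη, hη', hκ, hQ⟩ := exists_QQ_bound hL
  obtain ⟨K₁, hK₁, hss⟩ := exists_ss_bound L
  have hQpos : ∀ z : ℂ, |z.im| ≤ η → 0 < ‖QQ L z‖ := fun z hz =>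
    lt_of_lt_of_le (by positivity) (hQ z hz)
  have hinv : ∀ z : ℂ, |z.im| ≤ η →
      ‖QQ L z‖⁻¹ ≤ κ⁻¹ * Real.exp (-((lam z).re * L)) ^ 2 := by
    intro z hz
    rw [Real.exp_neg, inv_pow, ← mul_inv]
    exact inv_anti₀ (by positivity) (hQ z hz)
  refine ⟨η, 2 * K₁ + 2 * κ⁻¹ + 2 * K₁ * κ⁻¹, hη, hη', by positivity,
    fun z hz => norm_pos_iff.1 (hQpos z hz), fun z hz => ?_, fun z hz t ht => ?_,
    fun z hz t ht => ?_, fun z hz t ht => ?_⟩
  · rw [norm_div, div_eq_mul_inv]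
    have h1 := norm_cc_le z (τ := L) (by linarith)
    have h2 := hinv z hz
    have h3 : Real.exp ((lam z).re * L) * Real.exp (-((lam z).re * L)) = 1 := by
      rw [← Real.exp_add]; simp
    set E := Real.exp ((lam z).re * L)
    set F := Real.exp (-((lam z).re * L))
    have hF : 0 < F := Real.exp_pos _
    calc ‖cc L z‖ * ‖QQ L z‖⁻¹ ≤ E * (κ⁻¹ * F ^ 2) := by gcongr
      _ = κ⁻¹ * F * (E * F) := by ring
      _ = κ⁻¹ * F := by rw [h3, mul_one]
      _ ≤ _ := by gcongr; have : 0 < 2 * K₁ * κ⁻¹ := by positivity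
                  have : 0 < κ⁻¹ := by positivity
                  linarith
  · have hz1 : |z.im| ≤ 1 / 4 := hz.trans hη'
    have h1 := norm_mu_le hz1
    have h2 := hss z hz1 t ht
    rw [norm_mul]
    calc ‖mu z‖ * ‖ss t z‖ ≤ 2 * (1 + |z.re|) ^ 4 * ‖ss t z‖ := by gcongr
      _ = 2 * (1 + |z.re|) ^ 2 * ((1 + |z.re|) ^ 2 * ‖ss t z‖) := by ring
      _ ≤ 2 * (1 + |z.re|) ^ 2 * (K₁ * Real.exp ((lam z).re * t)) := by gcongr
      _ = 2 * K₁ * (1 + |z.re|) ^ 2 * Real.exp ((lam z).re * t) := by ring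
      _ ≤ _ := by
        gcongr
        have : 0 < 2 * K₁ * κ⁻¹ := by positivity
        have : 0 < κ⁻¹ := by positivity
        linarith
  · have hz1 : |z.im| ≤ 1 / 4 := hz.trans hη'
    have h1 := norm_cc_le z (τ := L) (by linarith)
    have h2 := hss z hz1 t ht
    have h3 := hss z hz1 (L - t) ⟨by linarith [ht.2], by linarith [ht.1]⟩
    have h4 := hinv z hz
    have h5 : ‖z‖ ^ 2 ≤ (1 + |z.re|) ^ 2 := by
      have := norm_le_one_add hz1
      gcongr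
    have h6 : ‖y2 L t z‖ ≤ ‖cc L z‖ * ‖ss (L - t) z‖ + ‖ss t z‖ := by
      rw [← norm_mul]; exact norm_sub_le _ _
    have hr := lam_re_nonneg z
    set r := (lam z).re
    have e1 : Real.exp (r * L) * Real.exp (r * (L - t)) * Real.exp (-(r * L)) ^ 2 =
        Real.exp (-(r * t)) := by
      rw [sq, ← Real.exp_add, ← Real.exp_add, ← Real.exp_add]; congr 1; ring
    have e2 : Real.exp (r * t) * Real.exp (-(r * L)) ^ 2 ≤ Real.exp (-(r * t)) := by
      rw [sq, ← Real.exp_add, ← Real.exp_add]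
      apply Real.exp_le_exp.2
      nlinarith [ht.2]
    rw [norm_mul, norm_div, norm_pow, div_eq_mul_inv]
    calc ‖z‖ ^ 2 * ‖QQ L z‖⁻¹ * ‖y2 L t z‖
        ≤ (1 + |z.re|) ^ 2 * (κ⁻¹ * Real.exp (-(r * L)) ^ 2) *
          (Real.exp (r * L) * ‖ss (L - t) z‖ + ‖ss t z‖) := by
          gcongr
          refine h6.trans ?_
          gcongr
      _ = (κ⁻¹ * Real.exp (-(r * L)) ^ 2) *
          (Real.exp (r * L) * ((1 + |z.re|) ^ 2 * ‖ss (L - t) z‖) +
            (1 + |z.re|) ^ 2 * ‖ss t z‖) := by ring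
      _ ≤ (κ⁻¹ * Real.exp (-(r * L)) ^ 2) *
          (Real.exp (r * L) * (K₁ * Real.exp (r * (L - t))) + K₁ * Real.exp (r * t)) := by
          gcongr
      _ = K₁ * κ⁻¹ * (Real.exp (r * L) * Real.exp (r * (L - t)) * Real.exp (-(r * L)) ^ 2 +
            Real.exp (r * t) * Real.exp (-(r * L)) ^ 2) := by ring
      _ ≤ K₁ * κ⁻¹ * (Real.exp (-(r * t)) + Real.exp (-(r * t))) := by
          rw [e1]; gcongr
      _ = 2 * K₁ * κ⁻¹ * Real.exp (-(r * t)) := by ring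
      _ ≤ _ := by
        gcongr
        have : 0 < κ⁻¹ := by positivity
        linarith
  · have hz1 : |z.im| ≤ 1 / 4 := hz.trans hη'
    have h1 := norm_cc_le z (τ := L) (by linarith)
    have h2 := norm_cc_le z (τ := t) ht.1
    have h3 := norm_cc_le z (τ := L - t) (by linarith [ht.2])
    have h4 := hinv z hz
    have h5 : ‖z‖ ^ 2 ≤ (1 + |z.re|) ^ 2 := by
      have := norm_le_one_add hz1
      gcongr
    have h6 : ‖y2d L t z‖ ≤ ‖cc L z‖ * ‖cc (L - t) z‖ + ‖cc t z‖ := by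
      rw [← norm_mul, ← norm_neg (cc L z * cc (L - t) z)]; exact norm_sub_le _ _
    have hr := lam_re_nonneg z
    set r := (lam z).re
    have e1 : Real.exp (r * L) * Real.exp (r * (L - t)) * Real.exp (-(r * L)) ^ 2 =
        Real.exp (-(r * t)) := by
      rw [sq, ← Real.exp_add, ← Real.exp_add, ← Real.exp_add]; congr 1; ring
    have e2 : Real.exp (r * t) * Real.exp (-(r * L)) ^ 2 ≤ Real.exp (-(r * t)) := by
      rw [sq, ← Real.exp_add, ← Real.exp_add]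
      apply Real.exp_le_exp.2
      nlinarith [ht.2]
    rw [norm_mul, norm_div, norm_pow, div_eq_mul_inv]
    calc ‖z‖ ^ 2 * ‖QQ L z‖⁻¹ * ‖y2d L t z‖
        ≤ (1 + |z.re|) ^ 2 * (κ⁻¹ * Real.exp (-(r * L)) ^ 2) *
          (Real.exp (r * L) * Real.exp (r * (L - t)) + Real.exp (r * t)) := by
          gcongr
          refine h6.trans ?_
          gcongr
      _ = κ⁻¹ * (1 + |z.re|) ^ 2 *
          (Real.exp (r * L) * Real.exp (r * (L - t)) * Real.exp (-(r * L)) ^ 2 +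
            Real.exp (r * t) * Real.exp (-(r * L)) ^ 2) := by ring
      _ ≤ κ⁻¹ * (1 + |z.re|) ^ 2 * (Real.exp (-(r * t)) + Real.exp (-(r * t))) := by
          rw [e1]; gcongr
      _ = 2 * κ⁻¹ * (1 + |z.re|) ^ 2 * Real.exp (-(r * t)) := by ring
      _ ≤ _ := by
        gcongr
        have : 0 < 2 * K₁ * κ⁻¹ := by positivity
        linarith

end Pool.Agent.P.MP_0afb51_an
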