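import Pool.Agent.P.MP_0afb51_an.Blowup
import Pool.Agent.P.MP_0afb51_an.Decay
import Pool.Agent.P.MP_0afb51_an.DiffPoly

/-!
The solution on the open time interval from `0` to `L`.
-/

namespace Pool.Agent.P.MP_0afb51_an

open Complex Set Filter Topology MeasureTheory
open scoped ComplexConjugate

theorem FT_Xp_zero (f : ℝ → ℝ → ℂ) (x t : ℝ) : FT (Xp 0 f) x t = FT f x t := by
  simp [FT, Xp]

theorem exists_solution (q : ℕ) {L : ℝ} (hL : 1 ≤ L) :
    ∃ u v p : ℕ → ℝ × ℝ → ℂ, Chain L u v p ∧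
      (∀ x, ∀ t ∈ Ioo 0 L, (u 0 (x, t)).im = 0) ∧
      (∀ i, i ≤ q → ∃ C, ∀ z ∈ (univ : Set ℝ) ×ˢ Ioo (0 : ℝ) L, ‖u i z‖ ≤ C) ∧
      (∀ i, i + 2 ≤ q → ∃ C, ∀ z ∈ (univ : Set ℝ) ×ˢ Ioo (0 : ℝ) L, ‖v i z‖ ≤ C) ∧
      (∀ δ : ℝ, 0 < δ → ∀ i N : ℕ, ∃ C, ∀ x t, δ ≤ rho L t → (1 + |x|) ^ N * ‖u i (x, t)‖ ≤ C) ∧
      ∀ x : ℝ, x = 0 ∨ x = 1 → ∀ B : ℝ, ∀ᶠ t in 𝓝[<] L, B ≤ (u (q + 1) (x, t)).re := by
  have hL0 : 0 ≤ L := by linarith
  have hσ : 2 ≤ q + 2 := by omega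
  obtain ⟨η, K, hK⟩ := exists_KB hL
  obtain ⟨ε, hε, hfix⟩ := exists_fixed hσ hL0 hK
  set c : ℝ := ε / (4 * 2 ^ (2 * q + 3)) with hc
  have hcpos : 0 < c := by positivity
  set φ : ℂ → ℂ := fun z => c * dat q z with hφ
  have hφd : DifferentiableOn ℂ φ (strip (1 / 2)) := (differentiableOn_dat q).const_mul _
  have hφb : ∀ z : ℂ, |z.im| ≤ η → ‖φ z‖ ≤ ε / (1 + |z.re|) ^ (q + 2) := by
    intro z hz
    have h := norm_dat_le q (hz.trans hK.eta_le)
    simp only [hφ, norm_mul, Complex.norm_real, Real.norm_eq_abs, abs_of_pos hcpos]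
    calc c * ‖dat q z‖ ≤ c * (4 * 2 ^ (2 * q + 3) / (1 + |z.re|) ^ (q + 2)) := by gcongr
      _ = _ := by rw [hc]; field_simp
  have hφs : ∀ k : ℝ, φ (-k) = conj (φ k) := by
    intro k
    simp only [hφ, dat_sym, map_mul, conj_ofReal]
  obtain ⟨w, M, hw, hhol, hsym, heq⟩ := hfix φ hφd hφb hφs
  have hH := hw.conv hσ hw
  set H := conv w w with hHdef
  let wr : ℝ → ℝ → ℂ := fun k t => w k t
  let Hr : ℝ → ℝ → ℂ := fun k t => H k t
  let wt : ℝ → ℝ → ℂ := fun k t => lind L φ k t + Duhd L H k t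
  have Aw : Adm (q + 2) L 0 wr := hw.adm
  have AH : Adm (q + 2) L 0 Hr := hH.adm
  have Alin := adm_lin hK hφd hε.le hφb
  have At : Adm (q + 2) L 2 wt := (adm_lind hK hφd hε.le hφb).add (adm_Duhd hL0 hK hH)
  have dw : ∀ k, ∀ t ∈ Ioo 0 L, HasDerivAt (wr k) (wt k t) t := by
    intro k t ht
    refine ((hasDerivAt_lin L φ k t).fun_add
      (hasDerivAt_Duh L hH.cont k t)).congr_of_eventuallyEq ?_
    filter_upwards [isOpen_Ioo.mem_nhds ht] with s hs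
    exact heq k s (Ioo_subset_Icc_self hs)
  have dwt : ∀ k, ∀ t ∈ Ioo 0 L, HasDerivAt (wt k) (mu k * wr k t - (k : ℂ) ^ 2 * Hr k t) t := by
    intro k t ht
    refine ((hasDerivAt_lind L φ k t).fun_add (hasDerivAt_Duhd L hH.cont
      (hK.ne k (by simpa using hK.eta_pos.le)) t)).congr_deriv ?_
    simp only [wr, Hr]
    rw [heq k t (Ioo_subset_Icc_self ht)]
    ring
  refine ⟨fun i z => FT (Xp i wr) z.1 z.2, fun i z => FT (Xp i wt) z.1 z.2,
    fun i z => FT (Xp i Hr) z.1 z.2, ⟨fun i => (Aw.Xp i).continuousOn_FT,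
      fun i => (At.Xp i).continuousOn_FT, fun i x t ht => Aw.hasDerivAt_x i x ht,
      fun i x t ht => At.hasDerivAt_x i x ht, fun i x t ht => AH.hasDerivAt_x i x ht,
      fun i x t ht => ?_, fun i x t ht => ?_, fun x t ht => ?_⟩,
    fun x t _ => ?_, fun i hi => ?_, fun i hi => ?_, fun δ hδ i N => ?_, fun x hx B => ?_⟩
  · exact (Aw.Xp i).hasDerivAt_t (At.Xp i) (fun k s hs => (dw k s hs).const_mul _) x ht
  · have A1 : Adm (q + 2) L (i + 4) (Xp (i + 4) wr) := (Aw.Xp _).mono (by omega)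
    have A2 : Adm (q + 2) L (i + 4) (Xp (i + 2) wr) := (Aw.Xp _).mono (by omega)
    have A3 : Adm (q + 2) L (i + 4) (Xp (i + 2) Hr) := (AH.Xp _).mono (by omega)
    have h := (At.Xp i).hasDerivAt_t ((A1.add A2).add A3) (fun k s hs => ?_) x ht
    · rw [FT_add (A1.add A2) A3 x ht, FT_add A1 A2 x ht] at h
      exact h
    · refine ((dwt k s hs).const_mul ((I * k) ^ i)).congr_deriv ?_
      have e2 : (I * k : ℂ) ^ 2 = -(k : ℂ) ^ 2 := by rw [mul_pow, I_sq]; ring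
      have e4 : (I * k : ℂ) ^ 4 = (k : ℂ) ^ 4 := by rw [mul_pow, I_pow_four]; ring
      unfold Xp mu
      rw [pow_add, pow_add, e2, e4]
      ring
  · simp only [FT_Xp_zero]
    refine FT_conv Aw ht (fun k => ?_) x
    simp only [Hr, wr, hHdef, conv]
    push_cast
    rfl
  · simp only [FT_Xp_zero]
    refine conj_eq_iff_im.1 (conj_FT (fun k => ?_) x)
    simp only [wr]
    push_cast
    exact hsym t k
  · obtain ⟨C, hC⟩ := (Aw.Xp i).bounded_FT (by omega)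
    exact ⟨C, fun z hz => hC z.1 z.2 (Ioo_subset_Icc_self hz.2)⟩
  · obtain ⟨C, hC⟩ := (At.Xp i).bounded_FT (by omega)
    exact ⟨C, fun z hz => hC z.1 z.2 (Ioo_subset_Icc_self hz.2)⟩
  · exact decay hK.eta_pos hK.eta_le hδ hw hhol i N
  · have AD := adm_Xp_Duh hL0 hK hH q
    obtain ⟨C, hC⟩ := AD.bounded_FT le_rfl
    have hLpos : 0 < L := by linarith
    filter_upwards [blowup_lin hLpos hcpos Alin hx (B + C), Ioo_mem_nhdsLT hLpos] with t ht htI
    have e : FT (Xp (q + 1) wr) x t = FT (Xp (q + 1) fun k t => lin L φ k t) x t +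
        FT (Xp (q + 1) fun k t => Duh L H k t) x t := by
      rw [← FT_add (Alin.Xp (q + 1)) AD x htI]
      unfold FT
      congr 1
      funext k
      simp only [Xp, wr]
      rw [heq k t (Ioo_subset_Icc_self htI)]
      ring
    have h1 := hC x t (Ioo_subset_Icc_self htI)
    have h2 := Complex.abs_re_le_norm (FT (Xp (q + 1) fun k t => Duh L H k t) x t)
    have h3 := neg_abs_le (FT (Xp (q + 1) fun k t => Duh L H k t) x t).re
    change B ≤ (FT (Xp (q + 1) wr) x t).re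
    rw [e, add_re]
    linarith

end Pool.Agent.P.MP_0afb51_an
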